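import Pool.Agent.H61.KV.TG
import Pool.Agent.H20.KV.FCB
import Pool.Agent.H20.KV.RNK
import Pool.Agent.H20.KV.EXP
import Pool.Agent.H14.KV.SPP
import Pool.Agent.H56.KV.EXT
import Pool.Agent.H67.KV.FTR
import Pool.Agent.H67.KV.FTU
import Pool.Agent.H67.KV.TWB

/-!
# Kuiper board KW: face calculus for closed convex cones (proved lemmas)
-/

set_option autoImplicit false
set_option linter.unusedSectionVars false
set_option linter.unusedVariables false

open Set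

namespace Pool.Agent.H61.KW

open Pool.Agent.H61.KV

section defs

variable {V : Type} [NormedAddCommGroup V] [NormedSpace ℝ V]

/-- the rank of the face of `p` -/
noncomputable def rk (C : Set V) (p : V) : ℕ := Module.finrank ℝ (Sp C p)

/-- `x` spans an extreme ray of `C` -/
def Ex (C : Set V) (x : V) : Prop := x ∈ C ∧ x ≠ 0 ∧ ∀ r ∈ Fc C x, ∃ c : ℝ, r = c • x

/-- every coset of `Sp C q` which meets `C` has a foot -/
def Ftd (C : Set V) (q : V) : Prop := q ∈ C ∧ ∀ r ∈ C, ∃ g, Foot C q r g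

/-- all boundary points of the face of `q` span extreme rays -/
def Scx (C : Set V) (q : V) : Prop := ∀ s, Bd C q s → Ex C s

/-- the face of `a + b` is the direct sum of the faces of `a` and `b` -/
def Dsum (C : Set V) (a b : V) : Prop :=
  a ∈ C ∧ b ∈ C ∧ (∀ v, v ∈ Sp C a → v ∈ Sp C b → v = 0) ∧
    ∀ r ∈ Fc C (a + b), ∃ u ∈ Fc C a, ∃ v ∈ Fc C b, r = u + v

/-- the face of `q` is generated by the linearly independent extreme vectors `x i` -/
def Gen {n : ℕ} (C : Set V) (x : Fin n → V) (q : V) : Prop :=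
  LinearIndependent ℝ x ∧ (∀ i, Ex C (x i)) ∧ (∀ i, x i ∈ Fc C q) ∧
    ∀ r ∈ Fc C q, ∃ c : Fin n → ℝ, (∀ i, 0 ≤ c i) ∧ r = ∑ i, c i • x i

/-- the face of `q` is a simplicial cone with `n` extreme rays -/
def Smp (C : Set V) (n : ℕ) (q : V) : Prop := ∃ x : Fin n → V, Gen C x q

/-- the face of `q` is a pyramid with base the face of `a` of rank 3 and apex `z` -/
structure Pyr (C : Set V) (q a z : V) : Prop where
  rk3 : rk C a = 3
  ex : Ex C z
  ds : Dsum C a z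
  mem : a + z ∈ Fc C q
  mem' : q ∈ Fc C (a + z)

end defs

section calculus

variable {V : Type} [NormedAddCommGroup V] [NormedSpace ℝ V] [FiniteDimensional ℝ V] {C : Set V}
  {p q r s t g x y : V}

/-! ### Faces -/

theorem fcb (C : Set V) (p : V) (hC : IsCC C) (hp : p ∈ C) :
    p ∈ Fc C p ∧ IsCC (Fc C p) ∧
    (∀ q ∈ C, ∀ r ∈ C, q + r ∈ Fc C p → q ∈ Fc C p ∧ r ∈ Fc C p) ∧
    (∀ q ∈ Fc C p, Fc C q ⊆ Fc C p) ∧
    (∀ q ∈ C, q ∈ Sp C p → q ∈ Fc C p) ∧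
    (∀ v ∈ Sp C p, ∃ ε > 0, ∀ δ : ℝ, 0 ≤ δ → δ ≤ ε → p + δ • v ∈ Fc C p) ∧
    (∀ q ∈ Fc C p, p ∈ Fc C q → Fc C q = Fc C p) :=
  Pool.Agent.H20.KV.FCB.pf_FCB V C p hC hp

theorem self (hC : IsCC C) (hp : p ∈ C) : p ∈ Fc C p := (fcb C p hC hp).1

theorem cc_face (hC : IsCC C) (hp : p ∈ C) : IsCC (Fc C p) := (fcb C p hC hp).2.1

theorem mem_C (h : q ∈ Fc C p) : q ∈ C := h.1

theorem face (hC : IsCC C) (hp : p ∈ C) (hq : q ∈ C) (hr : r ∈ C) (h : q + r ∈ Fc C p) :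
    q ∈ Fc C p ∧ r ∈ Fc C p := (fcb C p hC hp).2.2.1 q hq r hr h

/-- transitivity -/
theorem tra (hC : IsCC C) (hp : p ∈ C) (hq : q ∈ Fc C p) (hr : r ∈ Fc C q) : r ∈ Fc C p :=
  (fcb C p hC hp).2.2.2.1 q hq hr

theorem sub (hC : IsCC C) (hp : p ∈ C) (hq : q ∈ Fc C p) : Fc C q ⊆ Fc C p :=
  (fcb C p hC hp).2.2.2.1 q hq

theorem of_sp (hC : IsCC C) (hp : p ∈ C) (hq : q ∈ C) (h : q ∈ Sp C p) : q ∈ Fc C p :=
  (fcb C p hC hp).2.2.2.2.1 q hq h

theorem room (hC : IsCC C) (hp : p ∈ C) (h : q ∈ Sp C p) :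
    ∃ ε > 0, ∀ δ : ℝ, 0 ≤ δ → δ ≤ ε → p + δ • q ∈ Fc C p := (fcb C p hC hp).2.2.2.2.2.1 q h

theorem fc_eq (hC : IsCC C) (hp : p ∈ C) (hq : q ∈ Fc C p) (h : p ∈ Fc C q) : Fc C q = Fc C p :=
  (fcb C p hC hp).2.2.2.2.2.2 q hq h

theorem sp_eq (hC : IsCC C) (hp : p ∈ C) (hq : q ∈ Fc C p) (h : p ∈ Fc C q) : Sp C q = Sp C p := by
  unfold Sp
  rw [fc_eq hC hp hq h]

theorem zero_fc (hC : IsCC C) (hp : p ∈ C) : (0 : V) ∈ Fc C p := (cc_face hC hp).zero

theorem add_fc (hC : IsCC C) (hp : p ∈ C) (hq : q ∈ Fc C p) (hr : r ∈ Fc C p) :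
    q + r ∈ Fc C p := (cc_face hC hp).add q hq r hr

theorem smul_fc (hC : IsCC C) (hp : p ∈ C) {c : ℝ} (hc : 0 ≤ c) (hq : q ∈ Fc C p) :
    c • q ∈ Fc C p := (cc_face hC hp).smul c hc q hq

/-- the face of a sum contains the summands -/
theorem left_fc (hC : IsCC C) (hp : p ∈ C) (hq : q ∈ C) : p ∈ Fc C (p + q) :=
  (face hC (hC.add p hp q hq) hp hq (self hC (hC.add p hp q hq))).1

theorem right_fc (hC : IsCC C) (hp : p ∈ C) (hq : q ∈ C) : q ∈ Fc C (p + q) :=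
  (face hC (hC.add p hp q hq) hp hq (self hC (hC.add p hp q hq))).2

/-- the face of a sum is the smallest face which contains the summands -/
theorem join (hC : IsCC C) (hr : r ∈ C) (hp : p ∈ Fc C r) (hq : q ∈ Fc C r) :
    Fc C (p + q) ⊆ Fc C r := sub hC hr (add_fc hC hr hp hq)

theorem add_iff (hC : IsCC C) (hr : r ∈ C) (hp : p ∈ C) (hq : q ∈ C) :
    p + q ∈ Fc C r ↔ p ∈ Fc C r ∧ q ∈ Fc C r :=
  ⟨fun h => face hC hr hp hq h, fun h => add_fc hC hr h.1 h.2⟩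

theorem smul_mem (hC : IsCC C) (hp : p ∈ C) {c : ℝ} (hc : 0 < c) (hq : c • q ∈ Fc C p) :
    q ∈ Fc C p := by
  have h := smul_fc hC hp (inv_nonneg.2 hc.le) hq
  rwa [smul_smul, inv_mul_cancel₀ hc.ne', one_smul] at h

theorem smul_memC (hC : IsCC C) {c : ℝ} (hc : 0 < c) (hq : c • q ∈ C) : q ∈ C := by
  have h := hC.smul c⁻¹ (inv_nonneg.2 hc.le) _ hq
  rwa [smul_smul, inv_mul_cancel₀ hc.ne', one_smul] at h

/-- the face of a positive multiple -/
theorem fc_smul (hC : IsCC C) (hp : p ∈ C) {c : ℝ} (hc : 0 < c) : Fc C (c • p) = Fc C p :=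
  fc_eq hC hp (smul_fc hC hp hc.le (self hC hp))
    (smul_mem hC (hC.smul c hc.le p hp) hc (self hC (hC.smul c hc.le p hp)))

theorem sp_smul (hC : IsCC C) (hp : p ∈ C) {c : ℝ} (hc : 0 < c) : Sp C (c • p) = Sp C p := by
  unfold Sp
  rw [fc_smul hC hp hc]

/-- a summand may be replaced by a point with the same face -/
theorem fc_add_congr (hC : IsCC C) {p' q' : V} (hp : p ∈ C) (hq : q ∈ C) (h1 : p' ∈ Fc C p)
    (h2 : p ∈ Fc C p') (h3 : q' ∈ Fc C q) (h4 : q ∈ Fc C q') :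
    Fc C (p' + q') = Fc C (p + q) := by
  have hp' : p' ∈ C := mem_C h1
  have hq' : q' ∈ C := mem_C h3
  refine fc_eq hC (hC.add p hp q hq) ?_ ?_
  · exact add_fc hC (hC.add p hp q hq) (tra hC (hC.add p hp q hq) (left_fc hC hp hq) h1)
      (tra hC (hC.add p hp q hq) (right_fc hC hp hq) h3)
  · exact add_fc hC (hC.add p' hp' q' hq') (tra hC (hC.add p' hp' q' hq') (left_fc hC hp' hq') h2)
      (tra hC (hC.add p' hp' q' hq') (right_fc hC hp' hq') h4)

theorem fc_add_smul (hC : IsCC C) (hp : p ∈ C) (hq : q ∈ C) {a b : ℝ} (ha : 0 < a) (hb : 0 < b) :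
    Fc C (a • p + b • q) = Fc C (p + q) := by
  refine fc_add_congr hC hp hq (smul_fc hC hp ha.le (self hC hp)) ?_
    (smul_fc hC hq hb.le (self hC hq)) ?_
  · rw [fc_smul hC hp ha]
    exact self hC hp
  · rw [fc_smul hC hq hb]
    exact self hC hq

theorem fc_absorb (hC : IsCC C) (hp : p ∈ C) (hq : q ∈ Fc C p) : Fc C (p + q) = Fc C p :=
  fc_eq hC hp (add_fc hC hp (self hC hp) hq) (left_fc hC hp (mem_C hq))

theorem fc_sub (C : Set V) (p : V) : Fc C p ⊆ C := fun _ h => h.1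

/-! ### The pointed cone -/

theorem neg_not_mem (hC : IsCC C) (hp : p ∈ C) (h0 : p ≠ 0) : -p ∉ C := by
  obtain ⟨e, he⟩ := hC.pos
  intro h
  have h1 := he p hp h0
  have h2 := he (-p) h (neg_ne_zero.2 h0)
  rw [map_neg] at h2
  linarith

theorem sum_eq_zero (hC : IsCC C) (hp : p ∈ C) (hq : q ∈ C) (h : p + q = 0) : p = 0 ∧ q = 0 := by
  by_cases h0 : p = 0
  · subst h0
    exact ⟨rfl, by simpa using h⟩
  · exfalso
    apply neg_not_mem hC hp h0
    have h1 : q = -p := by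
      rw [← add_right_inj p, h, add_neg_cancel]
    rwa [h1] at hq

theorem coef_nonneg (hC : IsCC C) (hp : p ∈ C) (h0 : p ≠ 0) {c : ℝ} (h : c • p ∈ C) : 0 ≤ c := by
  obtain ⟨e, he⟩ := hC.pos
  by_contra hc
  push Not at hc
  have h1 := he p hp h0
  have h2 := he _ h (smul_ne_zero hc.ne h0)
  rw [map_smul, smul_eq_mul] at h2
  nlinarith

theorem coef_pos (hC : IsCC C) (hp : p ∈ C) (h0 : p ≠ 0) {c : ℝ} (h : c • p ∈ C)
    (h1 : c • p ≠ 0) : 0 < c := by
  rcases (coef_nonneg hC hp h0 h).eq_or_lt with h2 | h2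
  · exact absurd (by rw [← h2, zero_smul]) h1
  · exact h2

theorem fc_of_zero (hC : IsCC C) (h : p ∈ Fc C (0 : V)) : p = 0 := by
  obtain ⟨h1, c, -, h2⟩ := h
  rw [smul_zero, zero_sub] at h2
  by_contra h0
  exact neg_not_mem hC h1 h0 h2

theorem sp_of_zero (hC : IsCC C) (h : p ∈ Sp C (0 : V)) : p = 0 := by
  have h1 : Sp C (0 : V) ≤ ⊥ := by
    refine Submodule.span_le.2 ?_
    intro v hv
    rw [fc_of_zero hC hv]
    exact Submodule.zero_mem _
  exact (Submodule.mem_bot ℝ).1 (h1 h)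

/-! ### Spans and ranks -/

theorem mem_sp (h : q ∈ Fc C p) : q ∈ Sp C p := Submodule.subset_span h

theorem self_sp (hC : IsCC C) (hp : p ∈ C) : p ∈ Sp C p := mem_sp (self hC hp)

theorem sp_mono (hC : IsCC C) (hp : p ∈ C) (hq : q ∈ Fc C p) : Sp C q ≤ Sp C p :=
  Submodule.span_mono (sub hC hp hq)

theorem rk_mono (hC : IsCC C) (hp : p ∈ C) (hq : q ∈ Fc C p) : rk C q ≤ rk C p :=
  Submodule.finrank_mono (sp_mono hC hp hq)

theorem rk_lt (hC : IsCC C) (hp : p ∈ C) (hq : q ∈ Fc C p) (h : p ∉ Fc C q) : rk C q < rk C p :=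
  ((Pool.Agent.H20.KV.RNK.pf_RNK Pool.Agent.H20.KV.FCB.pf_FCB V C p q hC hp hq).2).resolve_left h

/-- a subface of the same rank is the whole face -/
theorem of_rk (hC : IsCC C) (hp : p ∈ C) (hq : q ∈ Fc C p) (h : rk C p ≤ rk C q) : p ∈ Fc C q := by
  by_contra h1
  have := rk_lt hC hp hq h1
  omega

theorem rk_congr (hC : IsCC C) (hp : p ∈ C) (hq : q ∈ Fc C p) (h : p ∈ Fc C q) :
    rk C q = rk C p := by
  unfold rk
  rw [sp_eq hC hp hq h]

theorem rk_smul (hC : IsCC C) (hp : p ∈ C) {c : ℝ} (hc : 0 < c) : rk C (c • p) = rk C p := by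
  unfold rk
  rw [sp_smul hC hp hc]

theorem rk_zero (hC : IsCC C) : rk C (0 : V) = 0 := by
  have h1 : Sp C (0 : V) = ⊥ := by
    rw [eq_bot_iff]
    intro v hv
    rw [sp_of_zero hC hv]
    exact Submodule.zero_mem _
  unfold rk
  rw [h1, finrank_bot]

theorem rk_pos (hC : IsCC C) (hp : p ∈ C) (h0 : p ≠ 0) : 1 ≤ rk C p := by
  by_contra h
  push Not at h
  have h1 : Module.finrank ℝ (Sp C p) = 0 := by unfold rk at h; omega
  have h2 : Sp C p = ⊥ := Submodule.finrank_eq_zero.1 h1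
  have h3 := self_sp hC hp
  rw [h2, Submodule.mem_bot] at h3
  exact h0 h3

theorem eq_zero_of_rk (hC : IsCC C) (hp : p ∈ C) (h : rk C p = 0) : p = 0 := by
  by_contra h0
  have := rk_pos hC hp h0
  omega

/-! ### Extreme rays -/

theorem ex_rk (hC : IsCC C) (hx : Ex C x) : rk C x = 1 := by
  have h1 : Sp C x = Submodule.span ℝ {x} := by
    apply le_antisymm
    · refine Submodule.span_le.2 ?_
      intro r hr
      obtain ⟨c, rfl⟩ := hx.2.2 r hr
      exact Submodule.smul_mem _ _ (Submodule.mem_span_singleton_self x)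
    · rw [Submodule.span_singleton_le_iff_mem]
      exact self_sp hC hx.1
  unfold rk
  rw [h1, finrank_span_singleton hx.2.1]

theorem ex_of_rk (hC : IsCC C) (hx : x ∈ C) (h0 : x ≠ 0) (h : rk C x ≤ 1) : Ex C x := by
  refine ⟨hx, h0, fun r hr => ?_⟩
  have h1 : rk C x = 1 := le_antisymm h (rk_pos hC hx h0)
  unfold rk at h1
  obtain ⟨c, hc⟩ := (finrank_eq_one_iff_of_nonzero' (⟨x, self_sp hC hx⟩ : Sp C x)
    (fun h => h0 (congrArg Subtype.val h))).1 h1 ⟨r, mem_sp hr⟩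
  exact ⟨c, (congrArg Subtype.val hc).symm⟩

theorem ex_of_rk1 (hC : IsCC C) (hx : x ∈ C) (h : rk C x = 1) : Ex C x := by
  refine ex_of_rk hC hx ?_ h.le
  rintro rfl
  rw [rk_zero hC] at h
  omega

theorem ex_smul (hC : IsCC C) (hx : Ex C x) {c : ℝ} (hc : 0 < c) : Ex C (c • x) := by
  refine ex_of_rk1 hC (hC.smul c hc.le x hx.1) ?_
  rw [rk_smul hC hx.1 hc, ex_rk hC hx]

/-- the elements of an extreme ray -/
theorem ex_mem (hC : IsCC C) (hx : Ex C x) (hr : r ∈ Fc C x) : ∃ c : ℝ, 0 ≤ c ∧ r = c • x := by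
  obtain ⟨c, rfl⟩ := hx.2.2 r hr
  exact ⟨c, coef_nonneg hC hx.1 hx.2.1 (mem_C hr), rfl⟩

/-- if `x` is extreme and `x = p + q` then `p` and `q` are multiples of `x` -/
theorem ex_add (hC : IsCC C) (hx : Ex C x) (hp : p ∈ C) (hq : q ∈ C) (h : p + q = x) :
    (∃ c : ℝ, 0 ≤ c ∧ p = c • x) ∧ ∃ c : ℝ, 0 ≤ c ∧ q = c • x := by
  have h1 := self hC hx.1
  nth_rw 2 [← h] at h1
  obtain ⟨h2, h3⟩ := face hC hx.1 hp hq h1
  exact ⟨ex_mem hC hx h2, ex_mem hC hx h3⟩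

/-- a nonzero point of an extreme ray has the same face -/
theorem ex_fc (hC : IsCC C) (hx : Ex C x) (hr : r ∈ Fc C x) (h0 : r ≠ 0) : x ∈ Fc C r := by
  obtain ⟨c, hc, rfl⟩ := ex_mem hC hx hr
  have hc' : 0 < c := by
    rcases hc.eq_or_lt with h | h
    · exact absurd (by rw [← h, zero_smul]) h0
    · exact h
  rw [fc_smul hC hx.1 hc']
  exact self hC hx.1

/-- an extreme ray is contained in a face or meets it only in the origin -/
theorem ex_meet (hC : IsCC C) (hp : p ∈ C) (hx : Ex C x) (hxp : x ∉ Fc C p) (hr : r ∈ Fc C x)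
    (hrp : r ∈ Fc C p) : r = 0 := by
  by_contra h0
  exact hxp (tra hC hp hrp (ex_fc hC hx hr h0))

/-- an extreme vector in the face of an extreme vector -/
theorem ex_par (hC : IsCC C) (hx : Ex C x) (hy : Ex C y) (h : y ∈ Fc C x) :
    ∃ c : ℝ, 0 < c ∧ y = c • x := by
  obtain ⟨c, hc, rfl⟩ := ex_mem hC hx h
  refine ⟨c, ?_, rfl⟩
  rcases hc.eq_or_lt with h1 | h1
  · exact absurd (by rw [← h1, zero_smul]) hy.2.1
  · exact h1

theorem ex_symm (hC : IsCC C) (hx : Ex C x) (hy : Ex C y) (h : y ∈ Fc C x) : x ∈ Fc C y :=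
  ex_fc hC hx h hy.2.1

/-- adding an extreme ray outside of a face increases the rank -/
theorem rk_add_ex (hC : IsCC C) (hp : p ∈ C) (hx : x ∈ C) (h : x ∉ Fc C p) :
    rk C p + 1 ≤ rk C (p + x) := by
  have h1 : p ∈ Fc C (p + x) := left_fc hC hp hx
  exact rk_lt hC (hC.add p hp x hx) h1 (fun h2 => h (tra hC hp h2 (right_fc hC hp hx)))

/-! ### Boundary points -/

theorem bd_rk (hC : IsCC C) (hq : q ∈ C) (h : Bd C q t) : rk C t < rk C q :=
  rk_lt hC hq h.1 h.2.2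

theorem bd_smul (hC : IsCC C) (hq : q ∈ C) (h : Bd C q t) {c : ℝ} (hc : 0 < c) :
    Bd C q (c • t) := by
  refine ⟨smul_fc hC hq hc.le h.1, smul_ne_zero hc.ne' h.2.1, ?_⟩
  rw [fc_smul hC (mem_C h.1) hc]
  exact h.2.2

theorem bd_congr (hC : IsCC C) {q' : V} (hq : q ∈ C) (h1 : q' ∈ Fc C q) (h2 : q ∈ Fc C q')
    (h : Bd C q t) : Bd C q' t := by
  refine ⟨by rw [fc_eq hC hq h1 h2]; exact h.1, h.2.1, fun h3 => h.2.2 ?_⟩
  exact tra hC (mem_C h.1) h3 h2

theorem bd_ex (hC : IsCC C) (hx : Ex C x) (hxq : x ∈ Fc C q) (h : 2 ≤ rk C q) : Bd C q x := by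
  refine ⟨hxq, hx.2.1, fun h1 => ?_⟩
  have h2 := rk_mono hC hx.1 h1
  rw [ex_rk hC hx] at h2
  omega

/-! ### Feet -/

theorem foot_memC (hC : IsCC C) (hq : q ∈ C) (h : Foot C q r g) : g ∈ C :=
  ((Pool.Agent.H67.KV.FTU.pf_FTU Pool.Agent.H20.KV.FCB.pf_FCB V C q hC hq).1 r g h).1

theorem foot_sub (hC : IsCC C) (hq : q ∈ C) (h : Foot C q r g) : g - r ∈ Sp C q :=
  ((Pool.Agent.H67.KV.FTU.pf_FTU Pool.Agent.H20.KV.FCB.pf_FCB V C q hC hq).1 r g h).2.1

theorem foot_self (hC : IsCC C) (hq : q ∈ C) (h : Foot C q r g) : Foot C q g g :=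
  ((Pool.Agent.H67.KV.FTU.pf_FTU Pool.Agent.H20.KV.FCB.pf_FCB V C q hC hq).1 r g h).2.2

/-- a point of `C` is the sum of its foot and a point of the face -/
theorem foot_dec (hC : IsCC C) (hq : q ∈ C) (hr : r ∈ C) (h : Foot C q r g) : r - g ∈ Fc C q :=
  (Pool.Agent.H67.KV.FTU.pf_FTU Pool.Agent.H20.KV.FCB.pf_FCB V C q hC hq).2.1 r g hr h

theorem foot_uniq (hC : IsCC C) (hq : q ∈ C) {r' g' : V} (h : r - r' ∈ Sp C q)
    (h1 : Foot C q r g) (h2 : Foot C q r' g') : g = g' :=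
  (Pool.Agent.H67.KV.FTU.pf_FTU Pool.Agent.H20.KV.FCB.pf_FCB V C q hC hq).2.2.1 r r' g g' h h1 h2

theorem foot_smul (hC : IsCC C) (hq : q ∈ C) {c : ℝ} (hc : 0 < c) (h : Foot C q r g) :
    Foot C q (c • r) (c • g) :=
  (Pool.Agent.H67.KV.FTU.pf_FTU Pool.Agent.H20.KV.FCB.pf_FCB V C q hC hq).2.2.2 r g c hc h

/-- a point of `C` in the coset of a foot `g` is in `g + Fc C q` -/
theorem foot_mem (h : Foot C q g g) (hr : r ∈ C) (h1 : r - g ∈ Sp C q) : r - g ∈ Fc C q :=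
  (h r).1 ⟨hr, h1⟩

/-- the face of `g + t` meets the face of `q` exactly in the face of `t` -/
theorem foot_face (hC : IsCC C) (hq : q ∈ C) (hg : g ∈ C) (ht : t ∈ Fc C q) (h : Foot C q g g)
    (hr : r ∈ Fc C q) (hr' : r ∈ Fc C (g + t)) : r ∈ Fc C t :=
  (Pool.Agent.H67.KV.FTR.pf_FTR Pool.Agent.H20.KV.FCB.pf_FCB V C q g t hC hq hg ht h).2.2 r hr hr'

/-- `Foot` depends only on the face of `q` -/
theorem foot_congr (hC : IsCC C) {q' : V} (hq : q ∈ C) (h1 : q' ∈ Fc C q) (h2 : q ∈ Fc C q')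
    (h : Foot C q r g) : Foot C q' r g := by
  intro s
  rw [fc_eq hC hq h1 h2, sp_eq hC hq h1 h2]
  exact h s

theorem ftd_congr (hC : IsCC C) {q' : V} (h1 : q' ∈ Fc C q) (h2 : q ∈ Fc C q')
    (h : Ftd C q) : Ftd C q' :=
  ⟨mem_C h1, fun r hr => (h.2 r hr).imp fun _ hg => foot_congr hC h.1 h1 h2 hg⟩

/-- the foot of `r + t` is the foot of `r` -/
theorem foot_shift (hr : Foot C q r g) (ht : t ∈ Sp C q) :
    Foot C q (r + t) g := by
  intro s
  rw [← hr s]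
  have h1 : s - (r + t) = (s - r) - t := by abel
  rw [h1]
  constructor
  · rintro ⟨h2, h3⟩
    refine ⟨h2, ?_⟩
    have h4 := Submodule.add_mem _ h3 ht
    rwa [sub_add_cancel] at h4
  · rintro ⟨h2, h3⟩
    exact ⟨h2, Submodule.sub_mem _ h3 ht⟩

/-- a foot which is in the face is zero -/
theorem foot_zero (hC : IsCC C) (hq : q ∈ C) (h : Foot C q g g) (h1 : g ∈ Fc C q) : g = 0 := by
  have h2 : -g ∈ Fc C q := by
    have h3 : (0 : V) - g ∈ Fc C q := by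
      refine foot_mem h hC.zero ?_
      rw [zero_sub]
      exact Submodule.neg_mem _ (mem_sp h1)
    rwa [zero_sub] at h3
  by_contra h0
  exact neg_not_mem hC (mem_C h1) h0 (mem_C h2)

/-- the points of the face of a foot are feet -/
theorem foot_down (hC : IsCC C) (hqf : Ftd C q) (hg : g ∈ C) (h : Foot C q g g)
    (hr : r ∈ Fc C g) : Foot C q r r := by
  obtain ⟨f, hf⟩ := hqf.2 r (mem_C hr)
  have hq := hqf.1
  obtain ⟨hrC, c, hc, hcr⟩ := hr
  have h1 := foot_dec hC hq hrC hf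
  have hfC := foot_memC hC hq hf
  -- `(c+1) g = f + (r - f) + ((c+1) g - r)`
  have h2 : (c + 1) • g - r ∈ C := by
    have : (c + 1) • g - r = (c • g - r) + g := by rw [add_smul, one_smul]; abel
    rw [this]
    exact hC.add _ hcr _ hg
  have h3 : Foot C q ((c + 1) • g) ((c + 1) • g) := foot_smul hC hq (by linarith) h
  have h4 : f + ((c + 1) • g - r) ∈ C := hC.add _ hfC _ h2
  have h5 : f + ((c + 1) • g - r) - (c + 1) • g = -(r - f) := by abel
  have h6 : f + ((c + 1) • g - r) - (c + 1) • g ∈ Fc C q := by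
    refine foot_mem h3 h4 ?_
    rw [h5]
    exact Submodule.neg_mem _ (mem_sp h1)
  rw [h5] at h6
  have h7 : r - f = 0 := by
    by_contra h0
    exact neg_not_mem hC (mem_C h1) h0 (mem_C h6)
  have h8 : r = f := sub_eq_zero.1 h7
  rw [← h8] at hf
  exact hf

/-- the face of a foot meets the face of `q` only in the origin -/
theorem foot_disj (hC : IsCC C) (hqf : Ftd C q) (hg : g ∈ C) (h : Foot C q g g)
    (hr : r ∈ Fc C g) (hr' : r ∈ Fc C q) : r = 0 :=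
  foot_zero hC hqf.1 (foot_down hC hqf hg h hr) hr'

/-- an extreme vector outside of the face is a foot -/
theorem foot_ex (hC : IsCC C) (hqf : Ftd C q) (hx : Ex C x) (h : x ∉ Fc C q) :
    Foot C q x x := by
  obtain ⟨f, hf⟩ := hqf.2 x hx.1
  have hq := hqf.1
  have h1 := foot_dec hC hq hx.1 hf
  have hfC := foot_memC hC hq hf
  have h2 : f + (x - f) = x := by abel
  obtain ⟨-, c, hc, h3⟩ := ex_add hC hx hfC (mem_C h1) h2
  rcases hc.eq_or_lt with h4 | h4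
  · rw [← h4, zero_smul, sub_eq_zero] at h3
    rw [← h3] at hf
    exact hf
  · exfalso
    apply h
    rw [h3] at h1
    exact smul_mem hC hq h4 h1

/-! ### Supporting functionals -/

/-- a functional which is nonnegative on `C` and vanishes at `p` vanishes on the face of `p` -/
theorem fun_zero {ξ : V →ₗ[ℝ] ℝ} (h : ∀ r ∈ C, 0 ≤ ξ r) (h0 : ξ p = 0) (hv : q ∈ Sp C p) :
    ξ q = 0 := Pool.Agent.H20.KV.EXP.pf_EXP V C p ξ h h0 q hv

/-- `Ov` in terms of joins -/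
theorem ov_of {a b : V} (h : Ov C q g)
    (h1 : q ∈ Fc C (a + b)) (h2 : g ∈ Fc C (a + b)) : Ov C a b := by
  intro ξ h3 h4 h5
  have h6 : ξ (a + b) = 0 := by rw [map_add, h4, h5, add_zero]
  exact h ξ h3 (fun_zero h3 h6 (mem_sp h1)) (fun_zero h3 h6 (mem_sp h2))

theorem ov_symm (h : Ov C p q) : Ov C q p := fun ξ h1 h2 h3 => h ξ h1 h3 h2

theorem ov_span (hC : IsCC C) (hs : Submodule.span ℝ C = ⊤) (hp : p ∈ C) (hq : q ∈ C)
    (h : Ov C p q) : Sp C (p + q) = ⊤ := by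
  by_contra h1
  obtain ⟨ξ, h2, h3, h4⟩ := Pool.Agent.H14.KV.SPP.pf_SPP V C (p + q) hC hs (hC.add p hp q hq) h1
  apply h2
  rw [map_add] at h4
  have h5 := h3 p hp
  have h6 := h3 q hq
  exact h ξ h3 (by linarith) (by linarith)

theorem ov_rk (hC : IsCC C) (hs : Submodule.span ℝ C = ⊤) (hp : p ∈ C) (hq : q ∈ C)
    (h : Ov C p q) : rk C (p + q) = Module.finrank ℝ V := by
  unfold rk
  rw [ov_span hC hs hp hq h, finrank_top]

theorem ov_mem (hC : IsCC C) (hs : Submodule.span ℝ C = ⊤) (hp : p ∈ C) (hq : q ∈ C)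
    (h : Ov C p q) (hr : r ∈ C) : r ∈ Fc C (p + q) := by
  refine of_sp hC (hC.add p hp q hq) hr ?_
  rw [ov_span hC hs hp hq h]
  exact Submodule.mem_top

theorem not_ov (hC : IsCC C) (hp : p ∈ C) (hq : q ∈ C) (h : ¬ Ov C p q) :
    Sp C (p + q) ≠ ⊤ := by
  intro h1
  apply h
  intro ξ h2 h3 h4
  have h6 : ξ (p + q) = 0 := by rw [map_add, h3, h4, add_zero]
  ext v
  have h7 : v ∈ Sp C (p + q) := by rw [h1]; exact Submodule.mem_top
  rw [fun_zero h2 h6 h7, LinearMap.zero_apply]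

theorem not_ov_rk (hC : IsCC C) (hp : p ∈ C) (hq : q ∈ C) (h : ¬ Ov C p q) :
    rk C (p + q) < Module.finrank ℝ V :=
  Submodule.finrank_lt (not_ov hC hp hq h)

/-- supporting functionals inside a face -/
theorem supp (hC : IsCC C) (hq : q ∈ C) (hr : r ∈ Fc C q) (h : q ∉ Fc C r) :
    ∃ ξ : V →ₗ[ℝ] ℝ, (∀ s ∈ Fc C q, 0 ≤ ξ s) ∧ ξ r = 0 ∧ 0 < ξ q := by
  classical
  -- the face as a cone in its span
  let W := Sp C q
  let D : Set W := {w | (w : V) ∈ Fc C q}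
  obtain ⟨e, he⟩ := hC.pos
  have hD : IsCC D := by
    refine ⟨zero_fc hC hq, ?_, ?_, ?_, ⟨e.comp W.subtype, ?_⟩⟩
    · intro a ha b hb
      exact add_fc hC hq ha hb
    · intro c hc a ha
      exact smul_fc hC hq hc ha
    · exact (cc_face hC hq).closed.preimage continuous_subtype_val
    · intro a ha h0
      exact he a (mem_C ha) (fun h1 => h0 (Subtype.ext h1))
  have hspan : Submodule.span ℝ D = ⊤ := by
    rw [eq_top_iff]
    rintro ⟨w, hw⟩ -
    have h1 : ∀ w (hw : w ∈ Sp C q), (⟨w, hw⟩ : W) ∈ Submodule.span ℝ D := by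
      intro w hw
      induction hw using Submodule.span_induction with
      | mem x hx => exact Submodule.subset_span (show (⟨x, _⟩ : W) ∈ D from hx)
      | zero => exact Submodule.zero_mem _
      | add x y hx hy h1 h2 => exact Submodule.add_mem _ h1 h2
      | smul c x hx h1 => exact Submodule.smul_mem _ c h1
    exact h1 w hw
  have hrD : (⟨r, mem_sp hr⟩ : W) ∈ D := hr
  have hne : Sp D (⟨r, mem_sp hr⟩ : W) ≠ ⊤ := by
    intro h1
    apply h
    have h2 : (⟨q, self_sp hC hq⟩ : W) ∈ Sp D (⟨r, mem_sp hr⟩ : W) := by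
      rw [h1]; exact Submodule.mem_top
    have h3 := of_sp hD hrD (show (⟨q, self_sp hC hq⟩ : W) ∈ D from self hC hq) h2
    obtain ⟨-, c, hc, h4⟩ := h3
    exact ⟨hq, c, hc, mem_C (show (c • r - q : V) ∈ Fc C q from h4)⟩
  obtain ⟨ξ, h1, h2, h3⟩ := Pool.Agent.H14.KV.SPP.pf_SPP W D ⟨r, mem_sp hr⟩ hD hspan hrD hne
  obtain ⟨ζ, hζ⟩ := LinearMap.exists_extend ξ
  have hζ' : ∀ w (hw : w ∈ Sp C q), ζ w = ξ ⟨w, hw⟩ := by
    intro w hw
    rw [← hζ]
    rfl
  refine ⟨ζ, ?_, ?_, ?_⟩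
  · intro s hs
    rw [hζ' s (mem_sp hs)]
    exact h2 _ hs
  · rw [hζ' r (mem_sp hr)]
    exact h3
  · rcases (h2 ⟨q, self_sp hC hq⟩ (self hC hq)).eq_or_lt with h5 | h5
    · exfalso
      apply h1
      ext ⟨w, hw⟩
      rw [LinearMap.zero_apply]
      have h6 : ∀ s ∈ Fc C q, ζ s = 0 := by
        rintro s ⟨hs, c, hc, hcs⟩
        have h7 : 0 ≤ ζ s := by
          rw [hζ' s (mem_sp ⟨hs, c, hc, hcs⟩)]
          exact h2 _ ⟨hs, c, hc, hcs⟩
        have h8 : c • q - s ∈ Fc C q := by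
          have h9 : (c • q - s) + s ∈ Fc C q := by
            rw [sub_add_cancel]
            exact smul_fc hC hq hc (self hC hq)
          exact (face hC hq hcs hs h9).1
        have h10 : 0 ≤ ζ (c • q - s) := by
          rw [hζ' _ (mem_sp h8)]
          exact h2 _ h8
        rw [map_sub, map_smul, hζ' q (self_sp hC hq), ← h5, smul_zero] at h10
        linarith
      have h11 : Sp C q ≤ LinearMap.ker ζ := by
        refine Submodule.span_le.2 ?_
        intro s hs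
        exact LinearMap.mem_ker.2 (h6 s hs)
      have h12 := LinearMap.mem_ker.1 (h11 hw)
      rwa [hζ' w hw] at h12
    · rw [hζ' q (self_sp hC hq)]
      exact h5

/-- where a line leaves a face -/
theorem leave (hC : IsCC C) (hp : p ∈ C) {w : V} (hw : w ∈ Sp C p) (hwC : w ∉ C) :
    ∃ s : ℝ, 0 < s ∧ p + s • w ∈ Fc C p ∧ p ∉ Fc C (p + s • w) :=
  Pool.Agent.H56.KV.EXT.pf_EXT Pool.Agent.H20.KV.FCB.pf_FCB V C p w hC hp hw hwC

end calculus

end Pool.Agent.H61.KW
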