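import Pool.Agent.H61.KV.Herm
import Mathlib

/-!
# Kuiper board KW: projective equivalence
-/

set_option autoImplicit false

open Set

namespace Pool.Agent.H61.KW.Proj

/-- Euclidean 8-space -/
abbrev E8 : Type := EuclideanSpace ℝ (Fin 8)

section herm

variable (M : (E8 × ℝ) →ₗ[ℝ] Matrix (Fin 3) (Fin 3) ℂ) (Φ : E8 →ᵃ[ℝ] Matrix (Fin 3) (Fin 3) ℂ)

/-- the homogenisation of an affine map -/
noncomputable def homog : (E8 × ℝ) →ₗ[ℝ] Matrix (Fin 3) (Fin 3) ℂ :=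
  Φ.linear.comp (LinearMap.fst ℝ E8 ℝ) + (LinearMap.snd ℝ E8 ℝ).smulRight (Φ 0)

theorem homog_apply (y : E8) (r : ℝ) : homog Φ (y, r) = Φ.linear y + r • Φ 0 := by
  simp [homog]

theorem homog_one (y : E8) : homog Φ (y, 1) = Φ y := by
  rw [homog_apply, one_smul]
  have h := Φ.map_vadd 0 y
  simp only [vadd_eq_add, add_zero] at h
  exact h.symm

variable {Φ}

theorem trace_linear (ht : ∀ y, (Φ y).trace = 1) (y : E8) : (Φ.linear y).trace = 0 := by
  have h := Φ.map_vadd 0 y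
  simp only [vadd_eq_add, add_zero] at h
  have h2 := congrArg Matrix.trace h
  rw [Matrix.trace_add, ht, ht] at h2
  have h3 : (Φ.linear y).trace = ((Φ.linear y).trace + 1) - 1 := by ring
  rw [h3, ← h2]
  ring

theorem trace_homog (ht : ∀ y, (Φ y).trace = 1) (v : E8 × ℝ) :
    (homog Φ v).trace = (v.2 : ℂ) := by
  obtain ⟨y, r⟩ := v
  rw [homog_apply, Matrix.trace_add, trace_linear ht, Matrix.trace_smul, ht]
  simp

theorem homog_inj (ht : ∀ y, (Φ y).trace = 1) (hi : Function.Injective Φ) :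
    Function.Injective (homog Φ) := by
  rw [injective_iff_map_eq_zero]
  rintro ⟨y, r⟩ h
  have h1 := trace_homog ht (y, r)
  rw [h, Matrix.trace_zero] at h1
  have hr : r = 0 := by exact_mod_cast h1.symm
  subst hr
  rw [homog_apply, zero_smul, add_zero] at h
  have h2 : Φ y = Φ 0 := by
    have h3 := Φ.map_vadd 0 y
    simp only [vadd_eq_add, add_zero] at h3
    rw [h3, h, zero_add]
  rw [hi h2]
  rfl

theorem homog_herm (hh : ∀ y, (Φ y).IsHermitian) (v : E8 × ℝ) : (homog Φ v).IsHermitian := by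
  obtain ⟨y, r⟩ := v
  rw [homog_apply]
  have h1 : Φ.linear y = Φ y - Φ 0 := by
    have h3 := Φ.map_vadd 0 y
    simp only [vadd_eq_add, add_zero] at h3
    rw [h3]
    abel
  rw [h1]
  refine ((hh y).sub (hh 0)).add ?_
  rw [Matrix.IsHermitian, Matrix.conjTranspose_smul, (hh 0).eq]
  simp

theorem homog_surj (hΦ : ∀ A, A ∈ range Φ ↔ A.IsHermitian ∧ A.trace = 1)
    (A : Matrix (Fin 3) (Fin 3) ℂ) (hA : A.IsHermitian) : A ∈ range (homog Φ) := by
  have hh : ∀ y, (Φ y).IsHermitian := fun y => ((hΦ _).1 ⟨y, rfl⟩).1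
  have ht : ∀ y, (Φ y).trace = 1 := fun y => ((hΦ _).1 ⟨y, rfl⟩).2
  -- the trace is real
  have h1 : ((A.trace.re : ℝ) : ℂ) = A.trace := by
    apply Complex.conj_eq_iff_re.1
    have h2 := congrArg Matrix.trace hA.eq
    rw [Matrix.trace_conjTranspose] at h2
    exact h2
  set t : ℝ := A.trace.re with htdef
  have hB : (A - (t - 1) • Φ 0).IsHermitian := by
    refine hA.sub ?_
    rw [Matrix.IsHermitian, Matrix.conjTranspose_smul, (hh 0).eq]
    simp
  have hB2 : (A - (t - 1) • Φ 0).trace = 1 := by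
    rw [Matrix.trace_sub, Matrix.trace_smul, ht, ← h1]
    simp
  obtain ⟨y, hy⟩ := (hΦ _).2 ⟨hB, hB2⟩
  refine ⟨(y, 1) + (t - 1) • (0, 1), ?_⟩
  rw [map_add, map_smul, homog_one, homog_one, hy]
  abel

end herm

/-- the trace of `z z*` -/
theorem trace_rankOne (z : Fin 3 → ℂ) :
    (Matrix.vecMulVec z (star z)).trace = ((∑ i, ‖z i‖ ^ 2 : ℝ) : ℂ) := by
  rw [Matrix.trace]
  push_cast
  refine Finset.sum_congr rfl fun i _ => ?_
  rw [Matrix.diag_apply, Matrix.vecMulVec_apply, Pi.star_apply, RCLike.star_def, Complex.mul_conj,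
    Complex.normSq_eq_norm_sq]
  push_cast
  rfl

theorem norm_pos {z : Fin 3 → ℂ} (hz : z ≠ 0) : 0 < ∑ i, ‖z i‖ ^ 2 := by
  obtain ⟨i, hi⟩ := Function.ne_iff.1 hz
  refine Finset.sum_pos' (fun j _ => by positivity) ⟨i, Finset.mem_univ i, ?_⟩
  have : z i ≠ 0 := hi
  positivity

/-- Projective equivalence with the standard image. -/
theorem std (X : Set E8) (M : (E8 × ℝ) →ₗ[ℝ] Matrix (Fin 3) (Fin 3) ℂ)
    (Φ : E8 →ᵃ[ℝ] Matrix (Fin 3) (Fin 3) ℂ) (hM1 : Function.Injective M)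
    (hM2 : ∀ v, (M v).IsHermitian)
    (hM3 : ∀ x ∈ X, ∃ z : Fin 3 → ℂ, z ≠ 0 ∧ M (x, 1) = Matrix.vecMulVec z (star z))
    (hM4 : ∀ z : Fin 3 → ℂ, z ≠ 0 → ∃ (c : ℝ) (x : E8), x ∈ X ∧ 0 < c ∧
      M (c • (x, 1)) = Matrix.vecMulVec z (star z))
    (hΦ1 : Function.Injective Φ) (hΦ : ∀ A, A ∈ range Φ ↔ A.IsHermitian ∧ A.trace = 1) :
    ∃ L : (E8 × ℝ) ≃ₗ[ℝ] (E8 × ℝ), (∀ x ∈ X, (L (x, 1)).2 ≠ 0) ∧
      {y | ∃ z : Fin 3 → ℂ, z ≠ 0 ∧
        Φ y = (∑ i, ‖z i‖ ^ 2)⁻¹ • Matrix.vecMulVec z (star z)} =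
      {y | ∃ x ∈ X, y = ((L (x, 1)).2)⁻¹ • (L (x, 1)).1} := by
  have ht : ∀ y, (Φ y).trace = 1 := fun y => ((hΦ _).1 ⟨y, rfl⟩).2
  have hΨ := homog_inj ht hΦ1
  -- the linear automorphism
  have hex : ∀ v, ∃ w, homog Φ w = M v := fun v => homog_surj hΦ (M v) (hM2 v)
  have hr : LinearMap.range M ≤ LinearMap.range (homog Φ) := by
    rintro _ ⟨v, rfl⟩
    obtain ⟨w, hw⟩ := hex v
    exact ⟨w, hw⟩
  let e1 : (E8 × ℝ) ≃ₗ[ℝ] LinearMap.range (homog Φ) := LinearEquiv.ofInjective (homog Φ) hΨ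
  let l : (E8 × ℝ) →ₗ[ℝ] (E8 × ℝ) :=
    e1.symm.toLinearMap.comp (M.codRestrict (LinearMap.range (homog Φ)) fun v => hr ⟨v, rfl⟩)
  have hl : ∀ v, homog Φ (l v) = M v := by
    intro v
    have h1 : e1 (l v) = ⟨M v, hr ⟨v, rfl⟩⟩ := by
      change e1 (e1.symm _) = _
      rw [LinearEquiv.apply_symm_apply]
      rfl
    exact congrArg Subtype.val h1
  have hli : Function.Injective l := by
    intro v w h
    apply hM1
    rw [← hl, ← hl, h]
  let L : (E8 × ℝ) ≃ₗ[ℝ] (E8 × ℝ) := LinearEquiv.ofInjectiveEndo l hli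
  have hL : ∀ v, homog Φ (L v) = M v := hl
  have htr : ∀ v, (M v).trace = ((L v).2 : ℂ) := fun v => by rw [← hL, trace_homog ht]
  have hpos : ∀ x ∈ X, ∀ z : Fin 3 → ℂ, M (x, 1) = Matrix.vecMulVec z (star z) →
      (L (x, 1)).2 = ∑ i, ‖z i‖ ^ 2 := by
    intro x hx z hz
    have h := htr (x, 1)
    rw [hz, trace_rankOne] at h
    exact_mod_cast h.symm
  refine ⟨L, ?_, ?_⟩
  · intro x hx
    obtain ⟨z, hz, h⟩ := hM3 x hx
    rw [hpos x hx z h]
    exact (norm_pos hz).ne'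
  · ext y
    constructor
    · rintro ⟨z, hz, h⟩
      obtain ⟨c, x, hx, hc, h2⟩ := hM4 z hz
      have hn := norm_pos hz
      have h3 : L (c • (x, 1)) = (∑ i, ‖z i‖ ^ 2) • (y, (1 : ℝ)) := by
        apply hΨ
        rw [hL, h2, map_smul, homog_one, h, smul_smul, mul_inv_cancel₀ hn.ne', one_smul]
      rw [map_smul] at h3
      have h4 : L (x, 1) = (c⁻¹ * ∑ i, ‖z i‖ ^ 2) • (y, (1 : ℝ)) := by
        rw [mul_smul, ← h3, smul_smul, inv_mul_cancel₀ hc.ne', one_smul]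
      refine ⟨x, hx, ?_⟩
      rw [h4]
      have h5 : (c⁻¹ * ∑ i, ‖z i‖ ^ 2) ≠ 0 := mul_ne_zero (inv_ne_zero hc.ne') hn.ne'
      simp only [Prod.smul_mk, smul_eq_mul, mul_one]
      rw [smul_smul, inv_mul_cancel₀ h5, one_smul]
    · rintro ⟨x, hx, rfl⟩
      obtain ⟨z, hz, h⟩ := hM3 x hx
      refine ⟨z, hz, ?_⟩
      have h1 := hpos x hx z h
      have hn := norm_pos hz
      rw [← homog_one, ← h1]
      have h2 : (((L (x, 1)).2)⁻¹ • (L (x, 1)).1, (1 : ℝ)) = ((L (x, 1)).2)⁻¹ • L (x, 1) := by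
        rw [Prod.ext_iff]
        refine ⟨rfl, ?_⟩
        rw [Prod.smul_snd, smul_eq_mul, inv_mul_cancel₀ (by rw [h1]; exact hn.ne')]
      rw [h2, map_smul, hL, h]

/-- Maps which preserve affine combinations of two points are affine. -/
theorem toAffine (Φ : E8 → Matrix (Fin 3) (Fin 3) ℂ)
    (h : ∀ (x y : E8) (t : ℝ), Φ ((1 - t) • x + t • y) = (1 - t) • Φ x + t • Φ y) :
    ∃ Ψ : E8 →ᵃ[ℝ] Matrix (Fin 3) (Fin 3) ℂ, ⇑Ψ = Φ := by
  have hsm : ∀ (t : ℝ) (y : E8), Φ (t • y) - Φ 0 = t • (Φ y - Φ 0) := by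
    intro t y
    have h1 := h 0 y t
    rw [smul_zero, zero_add] at h1
    rw [h1, sub_smul, one_smul, smul_sub]
    abel
  have hadd : ∀ x y : E8, Φ (x + y) - Φ 0 = (Φ x - Φ 0) + (Φ y - Φ 0) := by
    intro x y
    have h1 := h ((2 : ℝ) • x) ((2 : ℝ) • y) (1 / 2)
    have h2 : (1 - 1 / 2 : ℝ) • (2 : ℝ) • x + (1 / 2 : ℝ) • (2 : ℝ) • y = x + y := by
      rw [smul_smul, smul_smul]
      norm_num
    rw [h2] at h1
    have h3 := hsm 2 x
    have h4 := hsm 2 y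
    have h5 : Φ ((2 : ℝ) • x) = (2 : ℝ) • (Φ x - Φ 0) + Φ 0 := by rw [← h3]; abel
    have h6 : Φ ((2 : ℝ) • y) = (2 : ℝ) • (Φ y - Φ 0) + Φ 0 := by rw [← h4]; abel
    rw [h1, h5, h6]
    module
  let l : E8 →ₗ[ℝ] Matrix (Fin 3) (Fin 3) ℂ :=
    { toFun := fun y => Φ y - Φ 0
      map_add' := hadd
      map_smul' := hsm }
  refine ⟨AffineMap.mk Φ l ?_, rfl⟩
  intro p v
  change Φ (v + p) = (Φ v - Φ 0) + Φ p
  have h1 := hadd v p
  have h2 : Φ (v + p) = (Φ (v + p) - Φ 0) + Φ 0 := by abel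
  rw [h2, h1]
  abel

/-- Affinely independent points give linearly independent vectors of the homogenised space. -/
theorem lin_indep {v : Fin 9 → E8} (hv : AffineIndependent ℝ v) :
    LinearIndependent ℝ (fun i => ((v i, (1 : ℝ)) : E8 × ℝ)) := by
  rw [Fintype.linearIndependent_iff]
  intro g hg i
  have h1 : ∑ i, g i • v i = 0 := by
    have := congrArg Prod.fst hg
    simpa [Prod.fst_sum] using this
  have h2 : ∑ i, g i = 0 := by
    have := congrArg Prod.snd hg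
    simpa [Prod.snd_sum] using this
  have h3 := (affineIndependent_iff (k := ℝ) (p := v)).1 hv Finset.univ g h2 (by simpa using h1)
  exact h3 i (Finset.mem_univ i)

/-- Two realizations of the same complex are projectively equivalent. -/
theorem poly (v w : Fin 9 → E8) (hv : AffineIndependent ℝ v) (hw : AffineIndependent ℝ w)
    (P : Finset (Fin 9) → Prop) :
    ∃ L : (E8 × ℝ) ≃ₗ[ℝ] (E8 × ℝ),
      (∀ x ∈ ⋃ G ∈ {G : Finset (Fin 9) | P G}, convexHull ℝ (v '' (G : Set (Fin 9))),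
        (L (x, 1)).2 ≠ 0) ∧
      (⋃ G ∈ {G : Finset (Fin 9) | P G}, convexHull ℝ (w '' (G : Set (Fin 9)))) =
      {y | ∃ x ∈ ⋃ G ∈ {G : Finset (Fin 9) | P G}, convexHull ℝ (v '' (G : Set (Fin 9))),
        y = ((L (x, 1)).2)⁻¹ • (L (x, 1)).1} := by
  have hfr : Module.finrank ℝ (E8 × ℝ) = 9 := by simp
  let bv := basisOfLinearIndependentOfCardEqFinrank (lin_indep hv) (by rw [hfr]; simp)
  let bw := basisOfLinearIndependentOfCardEqFinrank (lin_indep hw) (by rw [hfr]; simp)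
  let L : (E8 × ℝ) ≃ₗ[ℝ] (E8 × ℝ) := bv.equiv bw (Equiv.refl _)
  have hL : ∀ i, L (v i, 1) = (w i, 1) := by
    intro i
    have h1 : bv i = (v i, 1) := by simp [bv]
    have h2 : bw i = (w i, 1) := by simp [bw]
    rw [← h1, ← h2]
    simp [L]
  have hsum : ∀ c : Fin 9 → ℝ, ∑ i, c i = 1 →
      L (∑ i, c i • v i, 1) = (∑ i, c i • w i, 1) := by
    intro c hc
    have h1 : ∀ u : Fin 9 → E8, ((∑ i, c i • u i, (1 : ℝ)) : E8 × ℝ) = ∑ i, c i • (u i, (1 : ℝ)) := by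
      intro u
      rw [Prod.ext_iff]
      constructor
      · simp [Prod.fst_sum]
      · simp [Prod.snd_sum, hc]
    rw [h1, h1, map_sum]
    refine Finset.sum_congr rfl fun i _ => ?_
    rw [map_smul, hL]
  -- points of the convex hulls
  have hcv : ∀ (u : Fin 9 → E8) (G : Finset (Fin 9)) (x : E8),
      x ∈ convexHull ℝ (u '' (G : Set (Fin 9))) ↔
      ∃ c : Fin 9 → ℝ, (∀ i, 0 ≤ c i) ∧ (∀ i, i ∉ G → c i = 0) ∧ ∑ i, c i = 1 ∧
        x = ∑ i, c i • u i := by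
    intro u G x
    constructor
    · intro hx
      classical
      have hconv : Convex ℝ {x : E8 | ∃ c : Fin 9 → ℝ, (∀ i, 0 ≤ c i) ∧ (∀ i, i ∉ G → c i = 0) ∧
          ∑ i, c i = 1 ∧ x = ∑ i, c i • u i} := by
        rintro x ⟨c, h1, h2, h3, rfl⟩ y ⟨d, k1, k2, k3, rfl⟩ a b ha hb hab
        refine ⟨fun i => a * c i + b * d i, fun i => ?_, fun i hi => ?_, ?_, ?_⟩
        · exact add_nonneg (mul_nonneg ha (h1 i)) (mul_nonneg hb (k1 i))
        · change a * c i + b * d i = 0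
          rw [h2 i hi, k2 i hi]; ring
        · rw [Finset.sum_add_distrib, ← Finset.mul_sum, ← Finset.mul_sum, h3, k3]
          linarith
        · rw [Finset.smul_sum, Finset.smul_sum, ← Finset.sum_add_distrib]
          refine Finset.sum_congr rfl fun i _ => ?_
          rw [add_smul, mul_smul, mul_smul]
      refine convexHull_min ?_ hconv hx
      rintro _ ⟨i, hi, rfl⟩
      refine ⟨Pi.single i 1, fun j => ?_, fun j hj => ?_, ?_, ?_⟩
      · rcases eq_or_ne j i with rfl | h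
        · simp
        · simp [h]
      · have : j ≠ i := by rintro rfl; exact hj hi
        simp [this]
      · simp
      · simp [Pi.single_apply]
    · rintro ⟨c, h1, h2, h3, rfl⟩
      have h4 : ∑ i, c i • u i = ∑ i ∈ G, c i • u i := by
        symm
        refine Finset.sum_subset (Finset.subset_univ G) fun i _ hi => ?_
        rw [h2 i hi, zero_smul]
      have h5 : ∑ i ∈ G, c i = 1 := by
        rw [← h3]
        exact Finset.sum_subset (Finset.subset_univ G) fun i _ hi => h2 i hi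
      rw [h4]
      exact (convex_convexHull ℝ _).sum_mem (fun i _ => h1 i) h5
        (fun i hi => subset_convexHull ℝ _ ⟨i, hi, rfl⟩)
  have hone : ∀ x ∈ ⋃ G ∈ {G : Finset (Fin 9) | P G}, convexHull ℝ (v '' (G : Set (Fin 9))),
      (L (x, 1)).2 = 1 := by
    intro x hx
    simp only [mem_iUnion, mem_setOf_eq] at hx
    obtain ⟨G, hG, hx⟩ := hx
    obtain ⟨c, -, -, h3, rfl⟩ := (hcv v G x).1 hx
    rw [hsum c h3]
  refine ⟨L, fun x hx => by rw [hone x hx]; exact one_ne_zero, ?_⟩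
  ext y
  constructor
  · intro hy
    simp only [mem_iUnion, mem_setOf_eq] at hy
    obtain ⟨G, hG, hy⟩ := hy
    obtain ⟨c, h1, h2, h3, rfl⟩ := (hcv w G y).1 hy
    have hx : ∑ i, c i • v i ∈
        ⋃ G ∈ {G : Finset (Fin 9) | P G}, convexHull ℝ (v '' (G : Set (Fin 9))) := by
      simp only [mem_iUnion, mem_setOf_eq]
      exact ⟨G, hG, (hcv v G _).2 ⟨c, h1, h2, h3, rfl⟩⟩
    refine ⟨_, hx, ?_⟩
    rw [hsum c h3, inv_one, one_smul]
  · rintro ⟨x, hx, rfl⟩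
    rw [hone x hx, inv_one, one_smul]
    simp only [mem_iUnion, mem_setOf_eq] at hx ⊢
    obtain ⟨G, hG, hx⟩ := hx
    obtain ⟨c, h1, h2, h3, rfl⟩ := (hcv v G x).1 hx
    refine ⟨G, hG, ?_⟩
    rw [hsum c h3]
    exact (hcv w G _).2 ⟨c, h1, h2, h3, rfl⟩

end Pool.Agent.H61.KW.Proj
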