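import Pool.Agent.H61.KV.TF
import Pool.Agent.H61.KW.Proj

/-!
# Kuiper board KW: from the theorem for cones to the theorem for embeddings
-/

open Topology Set
open Pool.Agent.H59 Pool.Agent.H64.LB Pool.Agent.H61.KU Pool.Agent.H61.KV

namespace Pool.Agent.H61.KW

/-- From the theorem for cones to embeddings. -/
theorem embN (hVER : T_VER) (f : C(PN 2, E8)) (hc : Cfg (fun x => ((f x, (1 : ℝ)) : E8 × ℝ)))
    (hseg : NSg (fun x => ((f x, (1 : ℝ)) : E8 × ℝ))) :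
    ∃ M : (E8 × ℝ) →ₗ[ℝ] Matrix (Fin 3) (Fin 3) ℂ, Function.Injective M ∧
      (∀ v, (M v).IsHermitian) ∧
      (∀ x ∈ range f, ∃ z : Fin 3 → ℂ, z ≠ 0 ∧ M (x, 1) = Matrix.vecMulVec z (star z)) ∧
      ∀ z : Fin 3 → ℂ, z ≠ 0 → ∃ (c : ℝ) (x : E8), x ∈ range f ∧ 0 < c ∧
        M (c • (x, 1)) = Matrix.vecMulVec z (star z) := by
  obtain ⟨M, hM1, hM2, hM3, hM4⟩ := hVER (E8 × ℝ) _ hc hseg
  refine ⟨M, hM1, hM2, ?_, ?_⟩
  · rintro _ ⟨x, rfl⟩
    obtain ⟨z, hz⟩ := hM3 (f x, 1) ⟨1, x, zero_le_one, by simp⟩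
    refine ⟨z, ?_, hz⟩
    rintro rfl
    have : M (f x, (1 : ℝ)) = M 0 := by
      rw [hz, map_zero]
      ext i j
      simp [Matrix.vecMulVec_apply]
    have := congrArg Prod.snd (hM1 this)
    simp at this
  · intro z hz
    obtain ⟨v, ⟨c, x, hc0, rfl⟩, hv⟩ := hM4 z
    refine ⟨c, f x, ⟨x, rfl⟩, lt_of_le_of_ne hc0 ?_, hv⟩
    rintro rfl
    rw [zero_smul, map_zero] at hv
    apply hz
    ext i
    have h := congrFun (congrFun hv i) i
    simp only [Matrix.zero_apply, Matrix.vecMulVec_apply, Pi.star_apply, RCLike.star_def] at h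
    have h' : z i * (starRingEnd ℂ) (z i) = 0 := h.symm
    rw [Complex.mul_conj] at h'
    have h'' : Complex.normSq (z i) = 0 := by exact_mod_cast h'
    simpa using h''

end Pool.Agent.H61.KW
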