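import Pool.Agent.H61.KW.TB

/-!
# P1X: the sphere around a point of an essential face
-/

set_option autoImplicit false

open Topology Set
open Pool.Agent.H59 Pool.Agent.H64.LB Pool.Agent.H61.KU Pool.Agent.H61.KV

namespace Pool.Agent.H61.KW

theorem pf_P1X (hCNC : T_CNC) (hP1N : T_P1N) (hCRF : T_CRF) (hLFM : T_LFM) (hTPS : T_TPS)
    (hGAU : T_GAU) (hXHO : T_XHO) : T_P1X := by
  intro V _ _ _ m hm q e hq he
  obtain ⟨hCC, hspan, hmC, hm0, hMC, hMcl, hMs, hMF⟩ := hCNC V m hm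
  obtain ⟨hqC, p0, hp0, hF0⟩ := hq
  have hpath := hXHO.1
  have hp00 : p0 ≠ 0 := by
    rintro rfl
    obtain ⟨x⟩ := hpath.nonempty
    exact hp0.2.1 ⟨0, x, le_rfl, by rw [zero_smul]⟩
  have hep0 : 0 < e p0 := he p0 hp0.1 hp00
  have hc0 : 0 < (e p0)⁻¹ := inv_pos.2 hep0
  set p : V := (e p0)⁻¹ • p0 with hpdef
  have hFp : Fc (Cn m) p = Fc (Cn m) q := by
    rw [hpdef, fc_smul hCC hp0.1 hc0, hF0]
  have hpC : p ∈ Cn m := hCC.smul _ hc0.le p0 hp0.1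
  have hep : e p = 1 := by
    rw [hpdef, map_smul, smul_eq_mul, inv_mul_cancel₀ hep0.ne']
  have hpM : p ∉ Mh m := by
    intro h
    apply hp0.2.1
    have := hMs (e p0) hep0.le _ h
    rwa [hpdef, smul_smul, mul_inv_cancel₀ hep0.ne', one_smul] at this
  have hSp : Sp (Cn m) p = Sp (Cn m) q := by
    unfold Sp
    rw [hFp]
  have hSp0 : Sp (Cn m) p = Sp (Cn m) p0 := by
    rw [hpdef, sp_smul hCC hp0.1 hc0]
  have hrk : Module.finrank ℝ (Sp (Cn m) p) = 2 + 2 := by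
    rw [hSp0]
    exact (hP1N V m hm p0 hp0).1
  obtain ⟨j, hj, hj0, hjS, hjE, hKc, hKv, h0K, hfr⟩ := hCRF V (Cn m) e p 2 hCC he hpC hep hrk
  have hqp : q ∈ Fc (Cn m) p := by
    rw [hFp]
    exact self hCC hqC
  have hpq : p ∈ Fc (Cn m) q := by
    rw [← hFp]
    exact self hCC hpC
  have hfrM : ∀ y ∈ frontier (j ⁻¹' Fc (Cn m) p),
      j y ∈ Fc (Cn m) p ∧ p ∉ Fc (Cn m) (j y) ∧ j y ∈ Mh m ∧ j y ≠ 0 := by
    intro y hy
    obtain ⟨hy1, hy2⟩ := hfr y hy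
    refine ⟨hy1, hy2, ?_, ?_⟩
    · have hy3 : j y ∈ Fc (Cn m) p0 := by
        rw [hF0, ← hFp]
        exact hy1
      rcases hp0.2.2 (j y) hy3 with h | h
      · exfalso
        apply hy2
        exact smul_fc hCC hy3.1 hc0.le h
      · exact h (self hCC hy3.1)
    · intro h
      have := (hjS y).2
      rw [h, map_zero] at this
      exact zero_ne_one this
  obtain ⟨hg1, hg2, hg3, -, -, -⟩ := hGAU (Fin (2 + 1) → ℝ) (j ⁻¹' Fc (Cn m) p) hKc hKv h0K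
  have hjc : Continuous j := AffineMap.continuous_of_finiteDimensional j
  have hrc : Continuous (fun u : Sph 2 => rad (j ⁻¹' Fc (Cn m) p) u.1) := by
    have e1 : Continuous (fun u : Sph 2 => gauge (j ⁻¹' Fc (Cn m) p) u.1) :=
      hg2.comp continuous_subtype_val
    have e2 : Continuous (fun u : Sph 2 => (gauge (j ⁻¹' Fc (Cn m) p) u.1)⁻¹) :=
      e1.inv₀ (fun u => (hg1 u.1 u.2).ne')
    have e3 : Continuous (fun u : Sph 2 => u.1) := continuous_subtype_val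
    exact e2.smul e3
  obtain ⟨α, hα⟩ := hLFM V m hm (Sph 2) (fun u => j (rad (j ⁻¹' Fc (Cn m) p) u.1))
    (hjc.comp hrc) (fun u => ⟨(hfrM _ (hg3 u.1 u.2)).2.2.1, (hfrM _ (hg3 u.1 u.2)).2.2.2⟩)
  have hα' : ∀ u, ∃ c : ℝ, 0 < c ∧ m (α u) = c • j (rad (j ⁻¹' Fc (Cn m) p) u.1) := by
    intro u
    obtain ⟨c, hc, hc2⟩ := hα u
    refine ⟨c⁻¹, inv_pos.2 hc, ?_⟩
    rw [hc2, smul_smul, inv_mul_cancel₀ hc.ne', one_smul]
  have hinj : Function.Injective (HH.map (ZMod 2) 2 α) :=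
    hTPS V m hm e p 2 j α he hpC hpM hep hj hj0 hjS hjE hKc hKv h0K hα' 2
  refine ⟨p, j, α, hpq, hqp, hpM, hep, hj, hj0, ?_, ?_, ?_, ?_, ?_, ?_, hinj⟩
  · intro y
    rw [← hSp]
    exact hjS y
  · rw [← hFp]
    exact hKc
  · rw [← hFp]
    exact hKv
  · rw [← hFp]
    exact h0K
  · intro u
    obtain ⟨c, hc, hc2⟩ := hα' u
    obtain ⟨h1, h2, h3, h4⟩ := hfrM _ (hg3 u.1 u.2)
    have hb : Bd (Cn m) q (j (rad (j ⁻¹' Fc (Cn m) p) u.1)) := by
      refine ⟨?_, h4, ?_⟩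
      · rw [← hFp]
        exact h1
      · intro h
        exact h2 (tra hCC h1.1 h hpq)
    rw [hc2]
    exact bd_smul hCC hqC hb hc
  · intro u
    rw [← hFp]
    exact hα' u

end Pool.Agent.H61.KW
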