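import Pool.Agent.H61.KW.TB

/-!
# Kuiper board KW, part C: no transversal extreme rays

In this part `Kit m` and `Star m` hold: no extreme ray is transversal to an essential face.  The
conclusion is that there are only finitely many extreme rays.
-/

open Topology Set
open Pool.Agent.H59 Pool.Agent.H64.LB Pool.Agent.H61.KU Pool.Agent.H61.KV
open scoped unitInterval

namespace Pool.Agent.H61.KW

/-- C1. Extreme rays of `q` are cofacial with a common ray of `q` and a transversal face. -/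
def T_COF : Prop :=
  ∀ (V : Type) [NormedAddCommGroup V] [NormedSpace ℝ V] [FiniteDimensional ℝ V] (m : PN 2 → V),
    Kit m → Star m → ∀ q q' t s, Ef m q → Ef m q' → Ov (Cn m) q q' → t ∈ Fc (Cn m) q →
      t ∈ Fc (Cn m) q' → s ∈ Fc (Cn m) q → q ∈ Fc (Cn m) (s + t) →
      Ov (Cn m) q' s ∧ ¬ Ex (Cn m) s

/-- C2. Transversal feet of rank 2: first part. -/
def T_R2A : Prop :=
  ∀ (V : Type) [NormedAddCommGroup V] [NormedSpace ℝ V] [FiniteDimensional ℝ V] (m : PN 2 → V),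
    Kit m → ∀ q g u, Ef m q → Tf m q g → rk (Cn m) g = 2 → Ex (Cn m) u → u ∈ Fc (Cn m) q →
      Ef m (g + u) ∧ rk (Cn m) (g + u) = 4

/-- C3. Transversal feet of rank 2: second part. -/
def T_R2B : Prop :=
  ∀ (V : Type) [NormedAddCommGroup V] [NormedSpace ℝ V] [FiniteDimensional ℝ V] (m : PN 2 → V),
    Kit m → Star m → ∀ q g, Ef m q → Tf m q g → rk (Cn m) g = 2 →
      ∃ a z, Pyr (Cn m) q a z ∧ Scx (Cn m) a

/-- C4. Two transversal pyramids with strictly convex bases and common ray in the bases. -/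
def T_CA1 : Prop :=
  ∀ (V : Type) [NormedAddCommGroup V] [NormedSpace ℝ V] [FiniteDimensional ℝ V] (m : PN 2 → V),
    Kit m → Star m → ∀ q q' a z a' z' t, Ef m q → Ef m q' → Ov (Cn m) q q' →
      Pyr (Cn m) q a z → Pyr (Cn m) q' a' z' → Scx (Cn m) a → Scx (Cn m) a' → Ex (Cn m) t →
      t ∈ Fc (Cn m) a → t ∈ Fc (Cn m) a' → False

/-- C5. Transversal feet have rank at least 3. -/
def T_NR2 : Prop :=
  ∀ (V : Type) [NormedAddCommGroup V] [NormedSpace ℝ V] [FiniteDimensional ℝ V] (m : PN 2 → V),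
    Kit m → Star m → ∀ q g, Ef m q → Tf m q g → 3 ≤ rk (Cn m) g

/-- C6. Transversal faces are pyramids with apex the common ray. -/
def T_A3P : Prop :=
  ∀ (V : Type) [NormedAddCommGroup V] [NormedSpace ℝ V] [FiniteDimensional ℝ V] (m : PN 2 → V),
    Kit m → Star m → ∀ q q' t, Ef m q → Ef m q' → Ov (Cn m) q q' → Ex (Cn m) t →
      t ∈ Fc (Cn m) q → t ∈ Fc (Cn m) q' → ∃ a, Pyr (Cn m) q a t ∧ Tf m q' a

/-- C7. Transversal faces, first part of the proof that they are simplicial. -/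
def T_A3A : Prop :=
  ∀ (V : Type) [NormedAddCommGroup V] [NormedSpace ℝ V] [FiniteDimensional ℝ V] (m : PN 2 → V),
    Kit m → Star m → ∀ q q' t a a', Ef m q → Ef m q' → Ex (Cn m) t → Pyr (Cn m) q a t →
      Pyr (Cn m) q' a' t → Tf m q' a → Tf m q a' → ¬ Smp (Cn m) 3 a →
      (∀ u, Ex (Cn m) u → u ∈ Fc (Cn m) a → rk (Cn m) (a' + u) = 5 ∧
        ∃ β ∈ Fc (Cn m) a', Ex (Cn m) β ∧ rk (Cn m) (β + u) = 3) ∧
      Smp (Cn m) 3 a' ∧ Scx (Cn m) a

/-- C8. Second part. -/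
def T_A3C : Prop :=
  ∀ (V : Type) [NormedAddCommGroup V] [NormedSpace ℝ V] [FiniteDimensional ℝ V] (m : PN 2 → V),
    Kit m → ∀ q' a, Ef m q' → Tf m q' a → rk (Cn m) a = 3 → ¬ Smp (Cn m) 3 a →
      (∀ u, Ex (Cn m) u → u ∈ Fc (Cn m) q' →
        (rk (Cn m) (a + u) = 4 ∧ Ef m (a + u)) ∨ rk (Cn m) (a + u) = 6) ∧
      ∀ u v, Ex (Cn m) u → Ex (Cn m) v → u ∈ Fc (Cn m) q' → v ∈ Fc (Cn m) q' →
        rk (Cn m) (a + u) = 6 → rk (Cn m) (a + v) = 6 → v ∈ Fc (Cn m) u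

/-- C9. Transversal faces are simplicial. -/
def T_A3F : Prop :=
  ∀ (V : Type) [NormedAddCommGroup V] [NormedSpace ℝ V] [FiniteDimensional ℝ V] (m : PN 2 → V),
    Kit m → Star m → ∀ q q', Ef m q → Ef m q' → Ov (Cn m) q q' → Smp (Cn m) 4 q

/-- C10. Transversal feet of faces which are not simplicial have rank at least 4. -/
def T_CEL4 : Prop :=
  ∀ (V : Type) [NormedAddCommGroup V] [NormedSpace ℝ V] [FiniteDimensional ℝ V] (m : PN 2 → V),
    Kit m → Star m → ∀ q g, Ef m q → ¬ Smp (Cn m) 4 q → Tf m q g → 4 ≤ rk (Cn m) g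

/-- C11. There is a transversal foot of rank 4. -/
def T_R5C : Prop :=
  ∀ (V : Type) [NormedAddCommGroup V] [NormedSpace ℝ V] [FiniteDimensional ℝ V] (m : PN 2 → V),
    Kit m → Star m → ∀ q, Ef m q → ¬ Smp (Cn m) 4 q → ∃ g, Tf m q g ∧ rk (Cn m) g = 4

/-- `g` is a transversal foot of rank 4 of an essential face which is not simplicial -/
structure R4 {V : Type} [NormedAddCommGroup V] [NormedSpace ℝ V] (m : PN 2 → V) (q g : V) :
    Prop where
  kit : Kit m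
  star : Star m
  ef : Ef m q
  ns : ¬ Smp (Cn m) 4 q
  tf : Tf m q g
  rk4 : rk (Cn m) g = 4

/-- C12. Small and big faces: `rk (g + s) - rk s` is 4 or 5; small faces give direct sums. -/
def T_SML : Prop :=
  ∀ (V : Type) [NormedAddCommGroup V] [NormedSpace ℝ V] [FiniteDimensional ℝ V] (m : PN 2 → V)
    (q g : V), R4 m q g →
    (∀ s ∈ Fc (Cn m) q, rk (Cn m) (g + s) = 4 + rk (Cn m) s ∨
      rk (Cn m) (g + s) = 5 + rk (Cn m) s) ∧
    (∀ s ∈ Fc (Cn m) q, rk (Cn m) (g + s) = 4 + rk (Cn m) s → Dsum (Cn m) g s) ∧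
    (∀ s ∈ Fc (Cn m) q, ∀ s' ∈ Fc (Cn m) s, rk (Cn m) (g + s') = 5 + rk (Cn m) s' →
      rk (Cn m) (g + s) = 5 + rk (Cn m) s) ∧
    (∀ s ∈ Fc (Cn m) q, ∀ s' ∈ Fc (Cn m) q, ∀ r ∈ Cn m,
      (∀ t, t ∈ Fc (Cn m) r ↔ t ∈ Fc (Cn m) s ∧ t ∈ Fc (Cn m) s') →
      rk (Cn m) (g + s) = 5 + rk (Cn m) s → rk (Cn m) (g + s') = 5 + rk (Cn m) s' →
      rk (Cn m) (g + r) = 5 + rk (Cn m) r)

/-- C12a. Five extreme rays. -/
def T_G5N : Prop :=
  ∀ (V : Type) [NormedAddCommGroup V] [NormedSpace ℝ V] [FiniteDimensional ℝ V] (C : Set V)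
    (b₁ b₂ z y t f : V), IsCC C → Ex C b₁ → Ex C b₂ → Ex C z → Ex C y → Ex C t →
    Dsum C b₁ b₂ → Dsum C z y → Dsum C (b₁ + b₂) (z + y) → Dsum C ((b₁ + b₂) + (z + y)) t →
    f ∈ C → f ∈ Fc C (((b₁ + b₂) + (z + y)) + t) → ((b₁ + b₂) + (z + y)) + t ∈ Fc C f →
    Gen C ![b₁, z, y, b₂, t] f

/-- C13. Two small extreme rays. -/
def T_NCC : Prop :=
  ∀ (V : Type) [NormedAddCommGroup V] [NormedSpace ℝ V] [FiniteDimensional ℝ V] (m : PN 2 → V)
    (q g t u : V), R4 m q g → Ex (Cn m) t → Ex (Cn m) u → t ∈ Fc (Cn m) q → u ∈ Fc (Cn m) q →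
    rk (Cn m) (g + t) = 5 → rk (Cn m) (g + u) = 5 → q ∉ Fc (Cn m) (t + u)

/-- C14. A small face of rank 2 and a small extreme ray. -/
def T_II2 : Prop :=
  ∀ (V : Type) [NormedAddCommGroup V] [NormedSpace ℝ V] [FiniteDimensional ℝ V] (m : PN 2 → V)
    (q g e t : V), R4 m q g → rk (Cn m) e = 2 → Ex (Cn m) t → e ∈ Fc (Cn m) q →
    t ∈ Fc (Cn m) q → rk (Cn m) (g + e) = 6 → rk (Cn m) (g + t) = 5 → q ∉ Fc (Cn m) (e + t)

/-- C15. A small face of rank 3 and a small extreme ray outside of it. -/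
def T_TRC : Prop :=
  ∀ (V : Type) [NormedAddCommGroup V] [NormedSpace ℝ V] [FiniteDimensional ℝ V] (m : PN 2 → V)
    (q g s t : V), R4 m q g → rk (Cn m) s = 3 → Ex (Cn m) t → s ∈ Fc (Cn m) q →
    t ∈ Fc (Cn m) q → t ∉ Fc (Cn m) s → rk (Cn m) (g + s) = 7 → rk (Cn m) (g + t) = 5 →
    Smp (Cn m) 3 s

/-- C16. Essential faces which are not simplicial are pyramids with big apex. -/
def T_SHP : Prop :=
  ∀ (V : Type) [NormedAddCommGroup V] [NormedSpace ℝ V] [FiniteDimensional ℝ V] (m : PN 2 → V)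
    (q g : V), R4 m q g → ∃ a z, Pyr (Cn m) q a z ∧ rk (Cn m) (g + z) = 6

/-- C17. The rank of `g + z` for all transversal feet `g`. -/
def T_R6Z : Prop :=
  ∀ (V : Type) [NormedAddCommGroup V] [NormedSpace ℝ V] [FiniteDimensional ℝ V] (m : PN 2 → V),
    Kit m → Star m → ∀ q, Ef m q → ¬ Smp (Cn m) 4 q →
      ∃ a z, Pyr (Cn m) q a z ∧ ∀ f, Tf m q f → rk (Cn m) (f + z) = 6

/-- C18. The cone is a direct sum. -/
def T_GAM : Prop :=
  ∀ (V : Type) [NormedAddCommGroup V] [NormedSpace ℝ V] [FiniteDimensional ℝ V] (m : PN 2 → V),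
    Kit m → ∀ q g a z, Ef m q → Tf m q g → Pyr (Cn m) q a z →
      (∀ f, Tf m q f → rk (Cn m) (f + z) = 6) →
      Dsum (Cn m) (g + z) a ∧ ∀ r ∈ Cn m, r ∈ Fc (Cn m) ((g + z) + a)

/-- C19. Direct sums with a base which is not a triangle are impossible. -/
def T_DSC : Prop :=
  ∀ (V : Type) [NormedAddCommGroup V] [NormedSpace ℝ V] [FiniteDimensional ℝ V] (m : PN 2 → V),
    Kit m → ∀ γ a z, Dsum (Cn m) γ a → (∀ r ∈ Cn m, r ∈ Fc (Cn m) (γ + a)) →
      ¬ Fc (Cn m) γ ⊆ Mh m → rk (Cn m) γ = 6 → rk (Cn m) a = 3 → ¬ Smp (Cn m) 3 a →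
      Ex (Cn m) z → z ∈ Fc (Cn m) γ → Ef m (a + z) → False

/-- C20. All essential faces are simplicial. -/
def T_ALT : Prop :=
  ∀ (V : Type) [NormedAddCommGroup V] [NormedSpace ℝ V] [FiniteDimensional ℝ V] (m : PN 2 → V),
    Kit m → Star m → ∀ q, Ef m q → Smp (Cn m) 4 q

/-- C21. There are finitely many extreme rays. -/
def T_FNT : Prop :=
  ∀ (V : Type) [NormedAddCommGroup V] [NormedSpace ℝ V] [FiniteDimensional ℝ V] (m : PN 2 → V),
    Kit m → (∀ q, Ef m q → Smp (Cn m) 4 q) → (∃ q, Ef m q) →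
      ∀ e : V →ₗ[ℝ] ℝ, (∀ r ∈ Cn m, r ≠ 0 → 0 < e r) → {x | Ex (Cn m) x ∧ e x = 1}.Finite

/-- C22. The convex hull of the image is a polytope. -/
def T_HUL : Prop :=
  ∀ f : C(PN 2, E8), Cfg (fun x => ((f x, (1 : ℝ)) : E8 × ℝ)) →
    {x | Ex (Cn (fun x => ((f x, (1 : ℝ)) : E8 × ℝ))) x ∧ x.2 = 1}.Finite →
    ∃ S : Set E8, S.Finite ∧ convexHull ℝ (range f) = convexHull ℝ S

/-- C23. The alternative. -/
def T_DIC : Prop :=
  ∀ f : C(PN 2, E8), Function.Injective f → Tight f → Substantial f →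
    (∃ S : Set E8, S.Finite ∧ convexHull ℝ (range f) = convexHull ℝ S) ∨
      NSg (fun x => ((f x, (1 : ℝ)) : E8 × ℝ))

end Pool.Agent.H61.KW
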