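import Pool.Agent.H14.KU.COU
import Pool.Agent.H16.KU.DOX
import Pool.Agent.H21.KU.CEL
import Pool.Agent.H21.KU.PRE
import Pool.Agent.H23.KU.GH4
import Pool.Agent.H24.KU.CHP
import Pool.Agent.H3.KU.SPH
import Pool.Agent.H33.KU.CAP
import Pool.Agent.H33.KU.OV
import Pool.Agent.H33.KU.PD2
import Pool.Agent.H54.KU.DOM
import Pool.Agent.H56.KU.HOM
import Pool.Agent.H56.KU.KKN
import Pool.Agent.H58.KU.SEP
import Pool.Agent.H58.KU.SLS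
import Pool.Agent.H67.KU.GAU
import Pool.Agent.H67.KU.OTI
import Pool.Agent.H69.KU.LIF
import Pool.Agent.H69.KU.TRV
import Pool.Agent.H70.KU.KC
import Pool.Agent.H86.KU.PD3
import Pool.Agent.H87.KU.S4A
import Pool.Agent.H87.KU.SLA
import Pool.Agent.H90.KU.T3
import Pool.Agent.H90.KU.UU2
import Pool.Agent.H90.KU.ZER
import Pool.Agent.H91.KU.PHI
import Pool.Agent.H91.KU.T3N
import Pool.Agent.H94.KU.CPT
import Pool.Agent.H94.KU.XHO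
import Pool.Agent.H61.KU.Lib
import Pool.Agent.H14.KV.HSP
import Pool.Agent.H14.KV.SPP
import Pool.Agent.H16.KV.EBD
import Pool.Agent.H17.KV.QPR
import Pool.Agent.H17.KV.T3G
import Pool.Agent.H19.KV.MNS
import Pool.Agent.H19.KV.NFX
import Pool.Agent.H19.KV.SPX
import Pool.Agent.H19.KV.UNI
import Pool.Agent.H20.KV.EXP
import Pool.Agent.H20.KV.FCB
import Pool.Agent.H20.KV.RNK
import Pool.Agent.H21.KV.AL1
import Pool.Agent.H21.KV.HLF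
import Pool.Agent.H21.KV.HSC
import Pool.Agent.H23.KV.KKW
import Pool.Agent.H3.KV.GCT
import Pool.Agent.H3.KV.STM
import Pool.Agent.H33.KV.CFI
import Pool.Agent.H33.KV.TPS
import Pool.Agent.H35.KV.MAX
import Pool.Agent.H42.KV.STD
import Pool.Agent.H47.KV.STQ
import Pool.Agent.H47.KV.SUM
import Pool.Agent.H47.KV.TRA
import Pool.Agent.H48.KV.EOV
import Pool.Agent.H48.KV.LIN
import Pool.Agent.H49.KV.BND
import Pool.Agent.H5.KV.NFS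
import Pool.Agent.H5.KV.PRC
import Pool.Agent.H5.KV.SPF
import Pool.Agent.H50.KV.BIP
import Pool.Agent.H51.KV.AL2
import Pool.Agent.H51.KV.JOI
import Pool.Agent.H51.KV.MIT
import Pool.Agent.H54.KV.MNM
import Pool.Agent.H56.KV.EXT
import Pool.Agent.H56.KV.SIM
import Pool.Agent.H58.KV.HAC
import Pool.Agent.H58.KV.P1N
import Pool.Agent.H58.KV.RK4
import Pool.Agent.H59.KV.NFP
import Pool.Agent.H59.KV.T3W
import Pool.Agent.H60.KV.CST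
import Pool.Agent.H60.KV.SMO
import Pool.Agent.H67.KV.FTR
import Pool.Agent.H67.KV.FTU
import Pool.Agent.H67.KV.TWB
import Pool.Agent.H68.KV.CNC
import Pool.Agent.H68.KV.CRF
import Pool.Agent.H68.KV.LFM
import Pool.Agent.H69.KV.CHN
import Pool.Agent.H69.KV.EFR
import Pool.Agent.H69.KV.POS
import Pool.Agent.H77.KV.B2N
import Pool.Agent.H85.KV.IND
import Pool.Agent.H85.KV.STP
import Pool.Agent.H86.KV.CMN
import Pool.Agent.H86.KV.QUA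
import Pool.Agent.H86.KV.SCF
import Pool.Agent.H86.KV.STJ
import Pool.Agent.H87.KV.OPN
import Pool.Agent.H87.KV.ST
import Pool.Agent.H87.KV.STB
import Pool.Agent.H89.KV.STK
import Pool.Agent.H92.KV.EXM
import Pool.Agent.H94.KV.BSI
import Pool.Agent.H94.KV.PRM
import Pool.Agent.H99.KV.ASM
import Pool.Agent.H99.KV.NFD
import Pool.Agent.H24.KU.DI5
import Pool.Agent.H1.KW.TOP
import Pool.Agent.H17.KW.SM2
import Pool.Agent.H17.KW.SPG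
import Pool.Agent.H18.KW.CLS
import Pool.Agent.H18.KW.DSA
import Pool.Agent.H20.KW.COF
import Pool.Agent.H20.KW.II2
import Pool.Agent.H20.KW.NCC
import Pool.Agent.H21.KW.DSB
import Pool.Agent.H21.KW.FIG
import Pool.Agent.H21.KW.SHS
import Pool.Agent.H23.KW.NR2
import Pool.Agent.H23.KW.SHR
import Pool.Agent.H23.KW.VEX
import Pool.Agent.H24.KW.F5U
import Pool.Agent.H24.KW.HSU
import Pool.Agent.H25.KW.LAM
import Pool.Agent.H3.KW.A3A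
import Pool.Agent.H3.KW.A3P
import Pool.Agent.H3.KW.LDE
import Pool.Agent.H3.KW.LDM
import Pool.Agent.H3.KW.RKF
import Pool.Agent.H3.KW.TFT
import Pool.Agent.H33.KW.R6Z
import Pool.Agent.H34.KW.SEG
import Pool.Agent.H35.KW.EXA
import Pool.Agent.H42.KW.KIT
import Pool.Agent.H47.KW.TTT
import Pool.Agent.H47.KW.TWO
import Pool.Agent.H47.KW.X5L
import Pool.Agent.H5.KW.SG2
import Pool.Agent.H5.KW.SMD
import Pool.Agent.H5.KW.THN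
import Pool.Agent.H53.KW.A3C
import Pool.Agent.H54.KW.EDG
import Pool.Agent.H54.KW.NUH
import Pool.Agent.H56.KW.EXG
import Pool.Agent.H56.KW.HUL
import Pool.Agent.H56.KW.SHP
import Pool.Agent.H56.KW.SML
import Pool.Agent.H58.KW.GNF
import Pool.Agent.H58.KW.LDI
import Pool.Agent.H58.KW.NCL
import Pool.Agent.H59.KW.CEL
import Pool.Agent.H59.KW.DIC
import Pool.Agent.H60.KW.GAM
import Pool.Agent.H60.KW.N1S
import Pool.Agent.H60.KW.PYR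
import Pool.Agent.H60.KW.R1S
import Pool.Agent.H60.KW.R2B
import Pool.Agent.H60.KW.SH3
import Pool.Agent.H61.KW.P1X
import Pool.Agent.H65.KW.FIN
import Pool.Agent.H66.KW.ALT
import Pool.Agent.H66.KW.G5N
import Pool.Agent.H66.KW.TRC
import Pool.Agent.H68.KW.LN3
import Pool.Agent.H68.KW.SH4
import Pool.Agent.H68.KW.SHB
import Pool.Agent.H76.KW.NSC
import Pool.Agent.H76.KW.NST
import Pool.Agent.H76.KW.TRR
import Pool.Agent.H76.KW.ZED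
import Pool.Agent.H81.KW.EPT
import Pool.Agent.H81.KW.H2U
import Pool.Agent.H83.KW.MN1
import Pool.Agent.H85.KW.SH2
import Pool.Agent.H85.KW.SHC
import Pool.Agent.H86.KW.RK2
import Pool.Agent.H87.KW.A3F
import Pool.Agent.H87.KW.DSC
import Pool.Agent.H87.KW.R5C
import Pool.Agent.H90.KW.FSF
import Pool.Agent.H90.KW.SH1
import Pool.Agent.H92.KW.CA1
import Pool.Agent.H92.KW.EXI
import Pool.Agent.H92.KW.R2A
import Pool.Agent.H92.KW.SCE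
import Pool.Agent.H93.KW.COE
import Pool.Agent.H93.KW.F5A
import Pool.Agent.H93.KW.F5B
import Pool.Agent.H93.KW.FNT
import Pool.Agent.H93.KW.SCM
import Pool.Agent.H94.KW.GNX
import Pool.Agent.H61.KW.TC
import Pool.Agent.H61.KV.VER

/-!
# Kuiper board KW: tight substantial embeddings of the complex projective plane, all targets
-/

open Topology Set
open Pool.Agent.H59 Pool.Agent.H64.LB

namespace Pool.Agent.H61.KW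

open Pool.Agent.H61.KU.Lib

/-- All targets: the configuration of an embedding, the theorem for configurations without
segments, the alternative. -/
theorem all :
    Pool.Agent.H61.KV.T_CFI ∧ Pool.Agent.H61.KV.T_VER ∧ T_DIC := by
  have hHOM : Pool.Agent.H61.KU.T_HOM := Pool.Agent.H56.KU.pf_hom
  have hGH4 : Pool.Agent.H61.KU.T_GH4 := Pool.Agent.H23.KU.GH4.pf_gh4 hm s2h
  have hCOU : Pool.Agent.H61.KU.T_COU := Pool.Agent.H14.KU.pf_cou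
  have hSLS : Pool.Agent.H61.KU.T_SLS := Pool.Agent.H58.KU.pf_sls mvs cs hCOU
  have hSLA : Pool.Agent.H61.KU.T_SLA := Pool.Agent.H61.KU.pf_sla mvs cs hCOU hSLS
  have hCEL : Pool.Agent.H61.KU.T_CEL := Pool.Agent.H21.KU.pf_cel hSLA
  have hSPH : Pool.Agent.H61.KU.T_SPH := Pool.Agent.H3.KU.pf_sph susp h0 con
  have hS4A : Pool.Agent.H61.KU.T_S4A := Pool.Agent.H61.KU.pf_s4a mv con h0 hSPH
  have hSEP : Pool.Agent.H61.KU.T_SEP := Pool.Agent.H58.KU.pf_sep mvs h0 hCEL hS4A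
  have hPRE : Pool.Agent.H61.KU.T_PRE := Pool.Agent.H21.KU.pf_pre du h0
  have hDOM : Pool.Agent.H61.KU.T_DOM := Pool.Agent.H54.KU.pf_dom hCEL hPRE hS4A hSEP
  have hCHP : Pool.Agent.H61.KU.T_CHP := Pool.Agent.H24.KU.pf_chp hHOM
  have hDOX : Pool.Agent.H61.KU.T_DOX := Pool.Agent.H16.KU.pf_dox hDOM hCHP
  have hLIF : Pool.Agent.H61.KU.T_LIF := Pool.Agent.H69.KU.pf_lif
  have hCAP : Pool.Agent.H61.KU.T_CAP := Pool.Agent.H33.KU.pf_cap hLIF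
  have hCPT : Pool.Agent.H61.KU.T_CPT := Pool.Agent.H94.KU.CPT.pf_cpt
  have hTRV : Pool.Agent.H61.KU.T_TRV := Pool.Agent.H69.KU.pf_trv
  have hPD3 : Pool.Agent.H61.KU.T_PD3 := Pool.Agent.H86.KU.pf_pd3 mv hm susp pl1 s2h hCAP hCPT hTRV
  have hPD2 : Pool.Agent.H61.KU.T_PD2 := Pool.Agent.H33.KU.pf_pd2 hm con
  have hUU2 : Pool.Agent.H61.KU.T_UU2 := Pool.Agent.H90.KU.pf_uu2 mv hPD3 hPD2
  have hPHI : Pool.Agent.H61.KU.T_PHI := Pool.Agent.H91.KU.PHI.pf_phi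
  have hKC : Pool.Agent.H61.KU.T_KC := Pool.Agent.H70.KU.pf_kc susp
  have hOV : Pool.Agent.H61.KU.T_OV := Pool.Agent.H33.KU.pf_ov mvs hPHI hKC
  have hZER : Pool.Agent.H61.KU.T_ZER := Pool.Agent.H90.KU.pf_zer mvs hGH4 hOV
  have hKKN : Pool.Agent.H61.KU.T_KKN := Pool.Agent.H56.KU.pf_kkn susp s2e hm
  have hT3N : Pool.Agent.H61.KU.T_T3N := Pool.Agent.H91.KU.T3N.pf_t3n hm s2h hUU2 hZER hKKN
  have hXHO : Pool.Agent.H61.KU.T_XHO := Pool.Agent.H94.KU.XHO.pf_xho mv hm con h0 pnt pl1 s2h hSPH hCHP hHOM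
  have hT3 : Pool.Agent.H61.KU.T_T3 := Pool.Agent.H90.KU.pf_t3 hm s2e pnt hHOM hXHO hT3N
  have hGAU : Pool.Agent.H61.KU.T_GAU := Pool.Agent.H67.KU.pf_gau
  have hOTI : Pool.Agent.H61.KU.T_OTI := Pool.Agent.H67.KU.pf_oti cs
  have hAL2 : Pool.Agent.H61.KV.T_AL2 := Pool.Agent.H51.KV.pf_AL2
  have hBIP : Pool.Agent.H61.KV.T_BIP := Pool.Agent.H50.KV.pf_BIP
  have hBND : Pool.Agent.H61.KV.T_BND := Pool.Agent.H49.KV.pf_BND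
  have hBSI : Pool.Agent.H61.KV.T_BSI := Pool.Agent.H94.KV.BSI.pf_BSI
  have hCFI : Pool.Agent.H61.KV.T_CFI := Pool.Agent.H33.KV.CFI.pf_CFI hOTI
  have hCNC : Pool.Agent.H61.KV.T_CNC := Pool.Agent.H68.KV.CNC.pf_CNC hXHO
  have hEXP : Pool.Agent.H61.KV.T_EXP := Pool.Agent.H20.KV.EXP.pf_EXP
  have hFCB : Pool.Agent.H61.KV.T_FCB := Pool.Agent.H20.KV.FCB.pf_FCB
  have hFTR : Pool.Agent.H61.KV.T_FTR := Pool.Agent.H67.KV.FTR.pf_FTR hFCB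
  have hFTU : Pool.Agent.H61.KV.T_FTU := Pool.Agent.H67.KV.FTU.pf_FTU hFCB
  have hHSC : Pool.Agent.H61.KV.T_HSC := Pool.Agent.H21.KV.HSC.pf_HSC hFCB
  have hHSP : Pool.Agent.H61.KV.T_HSP := Pool.Agent.H14.KV.HSP.pf_HSP hFCB
  have hKKW : Pool.Agent.H61.KV.T_KKW := Pool.Agent.H23.KV.pf_KKW susp s2e hm
  have hLFM : Pool.Agent.H61.KV.T_LFM := Pool.Agent.H68.KV.LFM.pf_LFM hXHO
  have hLIN : Pool.Agent.H61.KV.T_LIN := Pool.Agent.H48.KV.LIN.pf_LIN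
  have hOPN : Pool.Agent.H61.KV.T_OPN := Pool.Agent.H87.KV.pf_OPN hLFM hDOX
  have hPOS : Pool.Agent.H61.KV.T_POS := Pool.Agent.H69.KV.POS.pf_POS hBIP
  have hPRC : Pool.Agent.H61.KV.T_PRC := Pool.Agent.H5.KV.PRC.pf_PRC
  have hPRM : Pool.Agent.H85.KV.IND.PRMr := Pool.Agent.H94.KV.PRM.pf_PRM hPOS hBND
  have hQPR : Pool.Agent.H61.KV.T_QPR := Pool.Agent.H17.KV.QPR.pf_QPR
  have hQUA : Pool.Agent.H61.KV.T_QUA := Pool.Agent.H86.KV.pf_QUA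
  have hRNK : Pool.Agent.H61.KV.T_RNK := Pool.Agent.H20.KV.RNK.pf_RNK hFCB
  have hSIM : Pool.Agent.H61.KV.T_SIM := Pool.Agent.H56.KV.SIM.pf_SIM
  have hSPF : Pool.Agent.H61.KV.T_SPF := Pool.Agent.H5.KV.SPF.pf_SPF
  have hSPP : Pool.Agent.H61.KV.T_SPP := Pool.Agent.H14.KV.SPP.pf_SPP
  have hSPX : Pool.Agent.H61.KV.T_SPX := Pool.Agent.H19.KV.SPX.pf_SPX hFCB hFTU
  have hSTB : Pool.Agent.H61.KV.T_STB := Pool.Agent.H87.KV.pf_STB hPOS hBSI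
  have hSTD : Pool.Agent.H61.KV.T_STD := Pool.Agent.H42.KVSTD.pf_STD
  have hSTP : Pool.Agent.H61.KV.T_STP := Pool.Agent.H85.KV.STP.pf_STP hCOU mvs cs
  have hT3W : Pool.Agent.H61.KV.T_T3W := Pool.Agent.H59.KV.T3W.pf_T3W hm hUU2 hZER hKKW
  have hTPS : Pool.Agent.H61.KV.T_TPS := Pool.Agent.H33.KV.TPS.pf_TPS hm hGAU hHSP hCNC hXHO
  have hTRA : Pool.Agent.H61.KV.T_TRA := Pool.Agent.H47.KV.TRA.pf_TRA
  have hASM : Pool.Agent.H61.KV.T_ASM := Pool.Agent.H99.KV.ASM.pf_ASM hCNC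
  have hCRF : Pool.Agent.H61.KV.T_CRF := Pool.Agent.H68.KV.CRF.pf_CRF hFCB
  have hEFR : Pool.Agent.H61.KV.T_EFR := Pool.Agent.H69.KV.EFR.pf_EFR hFCB hCNC
  have hEXT : Pool.Agent.H61.KV.T_EXT := Pool.Agent.H56.KV.EXT.pf_EXT hFCB
  have hGCT : Pool.Agent.H61.KV.T_GCT := Pool.Agent.H3.KV.pf_GCT hPOS
  have hMNS : Pool.Agent.H61.KV.T_MNS := Pool.Agent.H19.KV.MNS.pf_MNS hFCB hRNK hCNC
  have hNFS : Pool.Agent.H61.KV.T_NFS := Pool.Agent.H5.KV.NFS.pf_NFS hCNC hEFR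
  have hP1N : Pool.Agent.H61.KV.T_P1N := Pool.Agent.H58.KV.pf_P1N hFCB hCNC hLFM hCRF hTPS hSPH hXHO hGAU
  have hSCF : Pool.Agent.H61.KV.T_SCF := Pool.Agent.H86.KV.pf_SCF hFCB hSPP hEXT
  have hT3G : Pool.Agent.H61.KV.T_T3G := Pool.Agent.H17.KV.T3G.pf_T3G hm s2e hHOM hT3W
  have hTWB : Pool.Agent.H61.KV.T_TWB := Pool.Agent.H67.KV.TWB.pf_TWB hFCB hEXT
  have hAL1 : Pool.Agent.H61.KV.T_AL1 := Pool.Agent.H21.KV.AL1.pf_AL1 hSCF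
  have hB2N : Pool.Agent.H61.KV.T_B2N := Pool.Agent.H77.KV.B2N.pf_B2N hP1N hT3 hCNC
  have hCST : Pool.Agent.H61.KV.T_CST := Pool.Agent.H60.KV.CST.pf_CST hSCF hLIN
  have hEBD : Pool.Agent.H61.KV.T_EBD := Pool.Agent.H16.KV.EBD.pf_EBD hEFR hFCB hCNC
  have hEXM : Pool.Agent.H61.KV.T_EXM := Pool.Agent.H92.KV.EXM.pf_EXM hCNC hMNS hFCB
  have hHAC : Pool.Agent.H61.KV.T_HAC := Pool.Agent.H58.KV.pf_HAC hCNC hP1N hT3G hXHO cs hEXP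
  have hMNM : Pool.Agent.H61.KV.T_MNM := Pool.Agent.H54.KV.MNM.pf_MNM hSPF hCNC hMNS hB2N hEXP hFCB
  have hSMO : Pool.Agent.H61.KV.T_SMO := Pool.Agent.H60.KV.SMO.pf_SMO hFCB hTWB
  have hSTM : Pool.Agent.H61.KV.T_STM := Pool.Agent.H3.KV.pf_STM hFCB hFTU hCNC hMNS hB2N
  have hUNI : Pool.Agent.H61.KV.T_UNI := Pool.Agent.H19.KV.UNI.pf_UNI hFCB hCNC hB2N hEBD
  have hCHN : Pool.Agent.H61.KV.T_CHN := Pool.Agent.H69.KV.CHN.pf_CHN hHAC hSTP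
  have hIND : Pool.Agent.H61.KV.T_IND := Pool.Agent.H85.KV.IND.pf_IND hPRC hPRM hMNM hLFM hOPN hCNC
  have hSTQ : Pool.Agent.H61.KV.T_STQ := Pool.Agent.H47.KV.STQ.pf_STQ hIND hPOS hCNC
  have hST : Pool.Agent.H61.KV.T_ST := Pool.Agent.H87.KV.pf_ST hSTD hTRA hSTQ hSTB hP1N hCNC hFCB
  have hSTK : Pool.Agent.H61.KV.T_STK := Pool.Agent.H89.KV.STK.pf_STK hSTQ hGCT hSIM hCHN hOPN hPRE hSTM hBSI hSPP hCNC hFCB hP1N hXHO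
  have hCMN : Pool.Agent.H61.KV.T_CMN := Pool.Agent.H86.KV.pf_CMN hFCB hCNC hST hSTM hFTU hFTR hEBD
  have hEOV : Pool.Agent.H61.KV.T_EOV := Pool.Agent.H48.KV.EOV.pf_EOV hST hCNC hFTU hEXP
  have hSTJ : Pool.Agent.H61.KV.T_STJ := Pool.Agent.H86.KV.pf_STJ hSTD hTRA hSTK hBSI hP1N hCNC hFCB hFTU
  have hRK4 : Pool.Agent.H61.KV.T_RK4 := Pool.Agent.H58.KV.pf_RK4 hFCB hCNC hST hSTJ hFTU hFTR hEBD hCMN hMNS hP1N hTWB hSPX hRNK hSPP hEXP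
  have hSUM : Pool.Agent.H61.KV.T_SUM := Pool.Agent.H47.KV.SUM.pf_SUM hFCB hCNC hST hFTR hEBD hCMN hP1N hSPX hSPP hRK4
  have hMAX : Pool.Agent.H61.KV.T_MAX := Pool.Agent.H35.KV.MAX.pf_MAX hFCB hCNC hST hFTU hFTR hEBD hEFR hMNS hP1N hTWB hSPX hB2N hEOV hEXP hRK4
  have hMIT : Pool.Agent.H61.KV.T_MIT := Pool.Agent.H51.KV.pf_MIT hFCB hCNC hSTM hFTR hP1N hTWB hEOV hRK4 hMAX hSTJ
  have hNFP : Pool.Agent.H61.KV.T_NFP := Pool.Agent.H59.KV.NFP.pf_NFP hFCB hCNC hNFS hRK4 hMAX hP1N hSPX hST hFTR hEBD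
  have hHLF : Pool.Agent.H61.KV.T_HLF := Pool.Agent.H21.KV.HLF.pf_HLF hFCB hCNC hSTM hFTR hEBD hP1N hTWB hUNI hSPP hEXP hRK4 hMAX hSTJ hMIT hEXM hEOV hSUM hSMO
  have hJOI : Pool.Agent.H61.KV.T_JOI := Pool.Agent.H51.KV.pf_JOI hCNC hFTR hP1N hTWB hRK4 hMAX hSTJ hMIT hEXM
  have hNFD : Pool.Agent.H61.KV.T_NFD := Pool.Agent.H99.KV.NFD.pf_NFD hFCB hCNC hNFS hNFP hRK4 hMAX hJOI hUNI hFTR hEBD hSTM hEFR
  have hNFX : Pool.Agent.H61.KV.T_NFX := Pool.Agent.H19.KV.NFX.pf_NFX hFCB hCNC hTRA hST hSTM hSTJ hFTU hP1N hMAX hMIT hHLF hHSC hEXP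
  have hDI5 : Pool.Agent.H61.KU.T_DI5 := Pool.Agent.H24.KU.pf_di5 hDOX
  have wCLS : Pool.Agent.H61.KW.T_CLS := Pool.Agent.H18.KW.pf_CLS
  have wCOF : Pool.Agent.H61.KW.T_COF := Pool.Agent.H20.KW.COF.pf_COF
  have wDSB : Pool.Agent.H61.KW.T_DSB := Pool.Agent.H21.KW.pf_DSB
  have wEDG : Pool.Agent.H61.KW.T_EDG := Pool.Agent.H54.KW.EDG.pf_EDG
  have wEXI : Pool.Agent.H61.KW.T_EXI := Pool.Agent.H92.KW.EXI.pf_EXI
  have wFIG : Pool.Agent.H61.KW.T_FIG := Pool.Agent.H21.KW.pf_FIG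
  have wFIN : Pool.Agent.H61.KW.T_FIN := Pool.Agent.H65.KW.FIN.pf_FIN
  have wFSF : Pool.Agent.H61.KW.T_FSF := Pool.Agent.H90.KW.FSF.pf_FSF
  have wG5N : Pool.Agent.H61.KW.T_G5N := Pool.Agent.H66.KW.G5N.pf_G5N wDSB
  have wGNF : Pool.Agent.H61.KW.T_GNF := Pool.Agent.H58.KW.GNF.pf_GNF
  have wGNX : Pool.Agent.H61.KW.T_GNX := Pool.Agent.H94.KW.GNX.pf_GNX
  have wH2U : Pool.Agent.H61.KW.T_H2U := Pool.Agent.H81.KW.H2U.pf_H2U hm s2h pl1 hXHO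
  have wHSU : Pool.Agent.H61.KW.T_HSU := Pool.Agent.H24.KW.HSU.pf_HSU hHSP
  have wHUL : Pool.Agent.H61.KW.T_HUL := Pool.Agent.H56.KW.HUL.pf_HUL hCNC wGNX
  have wLAM : Pool.Agent.H61.KW.T_LAM := Pool.Agent.H25.KW.LAM.pf_LAM
  have wLIN3 : Pool.Agent.H61.KW.T_LIN3 := Pool.Agent.H68.KW.LN3.pf_LIN3 hm
  have wNUH : Pool.Agent.H61.KW.T_NUH := Pool.Agent.H54.KW.NUH.pf_NUH hm con
  have wP1X : Pool.Agent.H61.KW.T_P1X := Pool.Agent.H61.KW.pf_P1X hCNC hP1N hCRF hLFM hTPS hGAU hXHO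
  have wPYR : Pool.Agent.H61.KW.T_PYR := Pool.Agent.H60.KW.PYR.pf_PYR
  have wSCE : Pool.Agent.H61.KW.T_SCE := Pool.Agent.H92.KW.SCE.pf_SCE
  have wSEG : Pool.Agent.H61.KW.T_SEG := Pool.Agent.H34.KW.SEG.pf_SEG
  have wSHB : Pool.Agent.H61.KW.T_SHB := Pool.Agent.H68.KW.SHB.pf_SHB wFIN
  have wSHR : Pool.Agent.H61.KW.T_SHR := Pool.Agent.H23.KW.SHR.pf_SHR wPYR
  have wSHS : Pool.Agent.H61.KW.T_SHS := Pool.Agent.H21.KW.pf_SHS wGNX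
  have wSMD : Pool.Agent.H61.KW.T_SMD := Pool.Agent.H5.KW.pf_SMD wDSB
  have wSPG : Pool.Agent.H61.KW.T_SPG := Pool.Agent.H17.KW.SPG.pf_SPG
  have wTFT : Pool.Agent.H61.KW.T_TFT := Pool.Agent.H3.KW.pf_TFT
  have wTHN : Pool.Agent.H61.KW.T_THN := Pool.Agent.H5.KW.pf_THN
  have wTOP : Pool.Agent.H61.KW.T_TOP := Pool.Agent.H1.KW.TOP.pf_TOP
  have wTRR : Pool.Agent.H61.KW.T_TRR := Pool.Agent.H76.KW.TRR.pf_TRR wTFT
  have wX5L : Pool.Agent.H61.KW.T_X5L := Pool.Agent.H47.KW.X5L.pf_X5L wDSB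
  have wXOU : Pool.Agent.H61.KW.T_XOU := Pool.Agent.H94.KW.GNX.pf_XOU wGNX
  have wXSP : Pool.Agent.H61.KW.T_XSP := Pool.Agent.H94.KW.GNX.pf_XSP wXOU
  have wZED : Pool.Agent.H61.KW.T_ZED := Pool.Agent.H76.KW.ZED.pf_ZED wDSB
  have wCOE : Pool.Agent.H61.KW.T_COE := Pool.Agent.H93.KW.COE.pf_COE wP1X wNUH hLFM hSPH
  have wDSA : Pool.Agent.H61.KW.T_DSA := Pool.Agent.H18.KW.pf_DSA wDSB
  have wEXA : Pool.Agent.H61.KW.T_EXA := Pool.Agent.H35.KW.EXA.pf_EXA wP1X wNUH wH2U wLIN3 wLAM wHSU hSPH wGNF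
  have wEXG : Pool.Agent.H61.KW.T_EXG := Pool.Agent.H56.KW.EXG.pf_EXG hDI5 hLFM hCNC hMNS wTOP
  have wKIT : Pool.Agent.H61.KW.T_KIT := Pool.Agent.H42.KW.KIT.pf_KIT hCNC hP1N hMNS hST hSTM hSTJ hEOV hB2N wXOU
  have wLDI : Pool.Agent.H61.KW.T_LDI := Pool.Agent.H58.KW.LDI.pf_LDI wSPG wFIG
  have wLDM : Pool.Agent.H61.KW.T_LDM := Pool.Agent.H3.KW.pf_LDM wSPG
  have wNCL : Pool.Agent.H61.KW.T_NCL := Pool.Agent.H58.KW.NCL.pf_NCL wXSP wSCE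
  have wRK2 : Pool.Agent.H61.KW.T_RK2 := Pool.Agent.H86.KW.RK2.pf_RK2 wTHN wGNF
  have wRKF : Pool.Agent.H61.KW.T_RKF := Pool.Agent.H3.KW.pf_RKF wSPG
  have wSCM : Pool.Agent.H61.KW.T_SCM := Pool.Agent.H93.KW.SCM.pf_SCM wLDI wXOU wNCL wCOE
  have wSG2 : Pool.Agent.H61.KW.T_SG2 := Pool.Agent.H5.KW.pf_SG2 wSEG wSPG
  have wSH4 : Pool.Agent.H61.KW.T_SH4 := Pool.Agent.H68.KW.SH4.pf_SH4 wXSP wRK2 wTHN
  have wSHC : Pool.Agent.H61.KW.T_SHC := Pool.Agent.H85.KW.SHC.pf_SHC wRK2 wEDG wFIN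
  have wTWO : Pool.Agent.H61.KW.T_TWO := Pool.Agent.H47.KW.TWO.pf_TWO wXSP
  have wVEX : Pool.Agent.H61.KW.T_VEX := Pool.Agent.H23.KW.VEX.pf_VEX wCOE
  have wEPT : Pool.Agent.H61.KW.T_EPT := Pool.Agent.H81.KW.EPT.pf_EPT wTFT wVEX
  have wF5A : Pool.Agent.H61.KW.T_F5A := Pool.Agent.H93.KW.F5A.pf_F5A wVEX wSHR wRKF wXOU wFIN
  have wF5B : Pool.Agent.H61.KW.T_F5B := Pool.Agent.H93.KW.F5B.pf_F5B wF5A wXOU wDSA
  have wF5U : Pool.Agent.H61.KW.T_F5U := Pool.Agent.H24.KW.F5U.pf_F5U wF5B wTFT wDSB wX5L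
  have wFNT : Pool.Agent.H61.KW.T_FNT := Pool.Agent.H93.KW.FNT.pf_FNT wGNF wEPT wVEX wFSF wTOP
  have wLDE : Pool.Agent.H61.KW.T_LDE := Pool.Agent.H3.KW.pf_LDE wLDM wLDI
  have wN1S : Pool.Agent.H61.KW.T_N1S := Pool.Agent.H60.KW.N1S.pf_N1S wSCM wEPT wXOU
  have wNSC : Pool.Agent.H61.KW.T_NSC := Pool.Agent.H76.KW.NSC.pf_NSC wSCM wXSP
  have wR1S : Pool.Agent.H61.KW.T_R1S := Pool.Agent.H60.KW.R1S.pf_R1S wTFT wLDE wXSP wXOU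
  have wR2A : Pool.Agent.H61.KW.T_R2A := Pool.Agent.H92.KW.R2A.pf_R2A wTFT wLDE wXSP wF5U
  have wR2B : Pool.Agent.H61.KW.T_R2B := Pool.Agent.H60.KW.R2B.pf_R2B wTFT wLDE wXSP wXOU wR2A wCOF wLDI wRK2 wPYR wFIN
  have wSH1 : Pool.Agent.H61.KW.T_SH1 := Pool.Agent.H90.KW.SH1.pf_SH1 wSHC wTHN wSHS
  have wSH2 : Pool.Agent.H61.KW.T_SH2 := Pool.Agent.H85.KW.SH2.pf_SH2 wXSP wRK2 wTHN wTWO wEDG
  have wSM2 : Pool.Agent.H61.KW.T_SM2 := Pool.Agent.H17.KW.SM2.pf_SM2 wTWO wSMD wGNF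
  have wTTT : Pool.Agent.H61.KW.T_TTT := Pool.Agent.H47.KW.TTT.pf_TTT wDSB wXOU wSM2 wSMD wFIN
  have wA3C : Pool.Agent.H61.KW.T_A3C := Pool.Agent.H53.KW.pf_A3C wTFT wLDE wF5U wSM2 wSMD
  have wCA1 : Pool.Agent.H61.KW.T_CA1 := Pool.Agent.H92.KW.CA1.pf_CA1 wTFT wR2A wXSP wSCE wTRR wSPG wDSB
  have wDSC : Pool.Agent.H61.KW.T_DSC := Pool.Agent.H87.KW.DSC.pf_DSC wDSB wF5A wTTT wSM2 wVEX wXOU wXSP
  have wGAM : Pool.Agent.H61.KW.T_GAM := Pool.Agent.H60.KW.GAM.pf_GAM wSPG wCLS wDSB wLDE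
  have wMN1 : Pool.Agent.H61.KW.T_MN1 := Pool.Agent.H83.KW.MN1.pf_MN1 wR1S wXSP wXOU wFIG wSCE
  have wNR2 : Pool.Agent.H61.KW.T_NR2 := Pool.Agent.H23.KW.NR2.pf_NR2 wR2B wR2A wCA1 wTFT wXSP wSCE wDSB
  have wNST : Pool.Agent.H61.KW.T_NST := Pool.Agent.H76.KW.NST.pf_NST wR1S wSCM wMN1 wN1S
  have wSH3 : Pool.Agent.H61.KW.T_SH3 := Pool.Agent.H60.KW.SH3.pf_SH3 wXSP wSM2 wTHN wPYR wDSB
  have wA3P : Pool.Agent.H61.KW.T_A3P := Pool.Agent.H3.KW.pf_A3P wCOF wNR2 wEXI wPYR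
  have wA3A : Pool.Agent.H61.KW.T_A3A := Pool.Agent.H3.KW.pf_A3A wTFT wA3P wTTT wSM2 wLDE wXSP wF5U wSMD wXOU wDSB
  have wA3F : Pool.Agent.H61.KW.T_A3F := Pool.Agent.H87.KW.A3F.pf_A3F wTRR wA3P wA3A wA3C wSHR wDSB wSCE wLDI wSM2 wTFT wXSP
  have wCEL4 : Pool.Agent.H61.KW.T_CEL4 := Pool.Agent.H59.KW.pf_CEL4 wNR2 wA3F wTFT wLDE wXSP wXOU wNSC
  have wR5C : Pool.Agent.H61.KW.T_R5C := Pool.Agent.H87.KW.R5C.pf_R5C wCEL4 wLDE wSEG wSPG wDSB wF5A wTTT wEPT wZED wXOU wXSP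
  have wSML : Pool.Agent.H61.KW.T_SML := Pool.Agent.H56.KW.SML.pf_SML wCEL4 wLDE wSG2 wLDM wLDI
  have wTRC : Pool.Agent.H61.KW.T_TRC := Pool.Agent.H66.KW.TRC.pf_TRC wF5U wSML wA3F wTWO wDSB wGNF wSMD wSM2
  have wII2 : Pool.Agent.H61.KW.T_II2 := Pool.Agent.H20.KW.II2.pf_II2 wF5U wSML wTFT wTWO wDSB wDSA wEXA wG5N
  have wNCC : Pool.Agent.H61.KW.T_NCC := Pool.Agent.H20.KW.NCC.pf_NCC wF5U wSML wNR2 wDSB
  have wSHP : Pool.Agent.H61.KW.T_SHP := Pool.Agent.H56.KW.SHP.pf_SHP wSML wNCC wII2 wTRC wSHB wSH4 wSH3 wSH2 wSH1 wLDE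
  have wR6Z : Pool.Agent.H61.KW.T_R6Z := Pool.Agent.H33.KW.R6Z.pf_R6Z wR5C wSHP wCEL4 wLDE wTTT
  have wALT : Pool.Agent.H61.KW.T_ALT := Pool.Agent.H66.KW.ALT.pf_ALT wR6Z wGAM wDSC wTFT wSM2
  have wDIC : Pool.Agent.H61.KW.T_DIC := Pool.Agent.H59.KW.pf_DIC hCFI wKIT wEXG wNST wALT wFNT wHUL
  exact ⟨hCFI, Pool.Agent.H61.KV.pf_VER hNFX hNFD hCST hQUA hQPR hAL1 hAL2 hASM hTRA, wDIC⟩

end Pool.Agent.H61.KW
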