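import Pool.Agent.H61.KW.Base

/-!
# Kuiper board KW, part A: pure convexity

All statements are about a closed convex pointed cone `C` in a finite dimensional space.  The
elementary face calculus is proved in `Pool.Agent.H61.KW.Base`.
-/

open Set

namespace Pool.Agent.H61.KW

open Pool.Agent.H61.KV

/-- A1. Every point is a sum of extreme vectors of its face. -/
def T_GNX : Prop :=
  ∀ (V : Type) [NormedAddCommGroup V] [NormedSpace ℝ V] [FiniteDimensional ℝ V] (C : Set V) (q : V),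
    IsCC C → q ∈ C → ∃ (n : ℕ) (x : Fin n → V), (∀ i, Ex C (x i) ∧ x i ∈ Fc C q) ∧ q = ∑ i, x i

/-- A2. Extreme vectors outside of a set which is closed under addition. -/
def T_XOU : Prop :=
  ∀ (V : Type) [NormedAddCommGroup V] [NormedSpace ℝ V] [FiniteDimensional ℝ V] (C D : Set V)
    (q : V), IsCC C → q ∈ C → (0 : V) ∈ D → (∀ a ∈ D, ∀ b ∈ D, a + b ∈ D) → q ∉ D →
    ∃ x, Ex C x ∧ x ∈ Fc C q ∧ x ∉ D

/-- A3. Extreme vectors outside of a subspace. -/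
def T_XSP : Prop :=
  ∀ (V : Type) [NormedAddCommGroup V] [NormedSpace ℝ V] [FiniteDimensional ℝ V] (C : Set V)
    (q : V) (W : Submodule ℝ V), IsCC C → q ∈ C → Module.finrank ℝ W < rk C q →
    ∃ x, Ex C x ∧ x ∈ Fc C q ∧ x ∉ W

/-- A4. The intersection of two faces is a face. -/
def T_FIN : Prop :=
  ∀ (V : Type) [NormedAddCommGroup V] [NormedSpace ℝ V] [FiniteDimensional ℝ V] (C : Set V)
    (p p' : V), IsCC C → p ∈ C → p' ∈ C → ∃ r ∈ C, ∀ s, s ∈ Fc C r ↔ s ∈ Fc C p ∧ s ∈ Fc C p'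

/-- A5. A largest face. -/
def T_TOP : Prop :=
  ∀ (V : Type) [NormedAddCommGroup V] [NormedSpace ℝ V] [FiniteDimensional ℝ V] (C : Set V),
    IsCC C → Submodule.span ℝ C = ⊤ → ∃ c ∈ C, Sp C c = ⊤ ∧ ∀ r ∈ C, r ∈ Fc C c

/-- A6. Faces of rank 2. -/
def T_TWO : Prop :=
  ∀ (V : Type) [NormedAddCommGroup V] [NormedSpace ℝ V] [FiniteDimensional ℝ V] (C : Set V)
    (q : V), IsCC C → q ∈ C → rk C q = 2 →
    ∃ x y, Ex C x ∧ Ex C y ∧ Dsum C x y ∧ x + y ∈ Fc C q ∧ q ∈ Fc C (x + y)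

/-- A7. The ray through an interior point which starts at the boundary point `t`. -/
def T_EXI : Prop :=
  ∀ (V : Type) [NormedAddCommGroup V] [NormedSpace ℝ V] [FiniteDimensional ℝ V] (C : Set V)
    (q t : V), IsCC C → q ∈ C → Bd C q t → ∃ s, Bd C q s ∧ q ∈ Fc C (s + t)

/-- A8. In a strictly convex face a boundary ray is a limit of other boundary rays. -/
def T_NCL : Prop :=
  ∀ (V : Type) [NormedAddCommGroup V] [NormedSpace ℝ V] [FiniteDimensional ℝ V] (C : Set V)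
    (q t : V), IsCC C → q ∈ C → 3 ≤ rk C q → Scx C q → Bd C q t →
    ∀ ε : ℝ, 0 < ε → ∃ s, Bd C q s ∧ s ∉ Fc C t ∧ ‖s - t‖ < ε

/-- A9. Two extreme rays of a strictly convex face. -/
def T_SCE : Prop :=
  ∀ (V : Type) [NormedAddCommGroup V] [NormedSpace ℝ V] [FiniteDimensional ℝ V] (C : Set V)
    (a x y : V), IsCC C → a ∈ C → Scx C a → Ex C x → Ex C y → x ∈ Fc C a → y ∈ Fc C a →
    y ∉ Fc C x → a ∈ Fc C (x + y)

/-- A10. Sums of faces are closed. -/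
def T_CLS : Prop :=
  ∀ (V : Type) [NormedAddCommGroup V] [NormedSpace ℝ V] [FiniteDimensional ℝ V] (C : Set V)
    (a b : V), IsCC C → a ∈ C → b ∈ C → IsClosed {r | ∃ u ∈ Fc C a, ∃ v ∈ Fc C b, r = u + v}

/-- A11. Feet and intersections. -/
def T_FIG : Prop :=
  ∀ (V : Type) [NormedAddCommGroup V] [NormedSpace ℝ V] [FiniteDimensional ℝ V] (C : Set V)
    (q g s s' r : V), IsCC C → Ftd C q → g ∈ C → Foot C q g g → s ∈ Fc C q → s' ∈ Fc C q →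
    r ∈ C → (∀ t, t ∈ Fc C r ↔ t ∈ Fc C s ∧ t ∈ Fc C s') →
    ∀ w, w ∈ Fc C (g + s) → w ∈ Fc C (g + s') → w ∈ Fc C (g + r)

/-- A12. Spans and intersections: `q` footed. -/
def T_SPG : Prop :=
  ∀ (V : Type) [NormedAddCommGroup V] [NormedSpace ℝ V] [FiniteDimensional ℝ V] (C : Set V)
    (q r s : V), IsCC C → Ftd C q → r ∈ C → s ∈ C →
    (∀ t, t ∈ Fc C q → t ∈ Fc C r → t ∈ Fc C s) → ∀ v, v ∈ Sp C q → v ∈ Sp C r → v ∈ Sp C s

/-- A13. The rank formula for a footed face. -/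
def T_RKF : Prop :=
  ∀ (V : Type) [NormedAddCommGroup V] [NormedSpace ℝ V] [FiniteDimensional ℝ V] (C : Set V)
    (q r s : V), IsCC C → Ftd C q → r ∈ C → s ∈ C →
    (∀ t, t ∈ Fc C q → t ∈ Fc C r → t ∈ Fc C s) → rk C q + rk C r ≤ rk C s + rk C (q + r)

/-- A14. Monotonicity of `rk (g + s) - rk s`. -/
def T_LDM : Prop :=
  ∀ (V : Type) [NormedAddCommGroup V] [NormedSpace ℝ V] [FiniteDimensional ℝ V] (C : Set V)
    (q g σ s : V), IsCC C → Ftd C q → g ∈ C → Foot C q g g → σ ∈ Fc C q → s ∈ Fc C σ →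
    rk C (g + s) + rk C σ ≤ rk C (g + σ) + rk C s

/-- A15. Submodularity of `rk (g + s) - rk s`. -/
def T_LDI : Prop :=
  ∀ (V : Type) [NormedAddCommGroup V] [NormedSpace ℝ V] [FiniteDimensional ℝ V] (C : Set V)
    (q g σ s s' r : V), IsCC C → Ftd C q → g ∈ C → Foot C q g g → σ ∈ Fc C q → s ∈ Fc C σ →
    s' ∈ Fc C σ → r ∈ C → (∀ t, t ∈ Fc C r ↔ t ∈ Fc C s ∧ t ∈ Fc C s') →
    rk C (g + s) + rk C (g + s') + rk C r + rk C σ ≤
      rk C (g + r) + rk C (g + σ) + rk C s + rk C s'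

/-- A16. The segment argument. -/
def T_SEG : Prop :=
  ∀ (V : Type) [NormedAddCommGroup V] [NormedSpace ℝ V] [FiniteDimensional ℝ V] (C : Set V)
    (q g : V), IsCC C → Ftd C q → g ∈ C → Foot C q g g → Ov C q g →
    (∀ g' ∈ Fc C g, g ∉ Fc C g' → ¬ Ov C q g') → ∀ r ∈ C, r ∈ Sp C g ⊔ Sp C q →
    ∃ u ∈ Fc C g, ∃ v ∈ Fc C q, r = u + v

/-- A17. If `rk (g + s) = rk g + rk s` the face of `g + s` is a direct sum. -/
def T_SG2 : Prop :=
  ∀ (V : Type) [NormedAddCommGroup V] [NormedSpace ℝ V] [FiniteDimensional ℝ V] (C : Set V)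
    (q g s : V), IsCC C → Ftd C q → g ∈ C → Foot C q g g → Ov C q g →
    (∀ g' ∈ Fc C g, g ∉ Fc C g' → ¬ Ov C q g') → s ∈ Fc C q → rk C (g + s) = rk C g + rk C s →
    Dsum C g s

/-- A18. Direct sums: ranks and subfaces. -/
def T_DSB : Prop :=
  ∀ (V : Type) [NormedAddCommGroup V] [NormedSpace ℝ V] [FiniteDimensional ℝ V] (C : Set V)
    (a b : V), IsCC C → Dsum C a b →
    rk C (a + b) = rk C a + rk C b ∧ Dsum C b a ∧
    (∀ u ∈ Fc C a, ∀ v ∈ Fc C b, Dsum C u v) ∧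
    (∀ u ∈ Fc C a, ∀ v ∈ Fc C b, ∀ r, r ∈ Fc C a → r ∈ Fc C (u + v) → r ∈ Fc C u) ∧
    (∀ u ∈ Fc C a, ∀ v ∈ Fc C b, ∀ r, r ∈ Fc C b → r ∈ Fc C (u + v) → r ∈ Fc C v) ∧
    ∀ x, Ex C x → x ∈ Fc C (a + b) → x ∈ Fc C a ∨ x ∈ Fc C b

/-- A19. Direct sums of three faces. -/
def T_DSA : Prop :=
  ∀ (V : Type) [NormedAddCommGroup V] [NormedSpace ℝ V] [FiniteDimensional ℝ V] (C : Set V)
    (a b c : V), IsCC C →
    (Dsum C a b → Dsum C (a + b) c → Dsum C a (b + c) ∧ Dsum C b c ∧ Dsum C a c) ∧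
    (Dsum C a (b + c) → Dsum C b c → Dsum C (a + b) c ∧ Dsum C a b ∧ Dsum C a c)

/-- A20. A criterion for pyramids. -/
def T_PYR : Prop :=
  ∀ (V : Type) [NormedAddCommGroup V] [NormedSpace ℝ V] [FiniteDimensional ℝ V] (C : Set V)
    (q a z : V), IsCC C → q ∈ C → rk C q = 4 → a ∈ Fc C q → rk C a = 3 → Ex C z → z ∈ Fc C q →
    z ∉ Fc C a → (∀ u, Bd C a u → q ∉ Fc C (u + z)) → Pyr C q a z

/-- A21. A criterion for simplicial cones. -/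
def T_THN : Prop :=
  ∀ (V : Type) [NormedAddCommGroup V] [NormedSpace ℝ V] [FiniteDimensional ℝ V] (C : Set V)
    (q : V) (n : ℕ) (x : Fin n → V), IsCC C → q ∈ C → rk C q = n → LinearIndependent ℝ x →
    (∀ i, Ex C (x i)) → (∀ i, x i ∈ Fc C q) →
    (∀ i, q ∉ Fc C (∑ j ∈ Finset.univ.erase i, x j)) → Gen C x q

/-- A22. At most two faces of rank 3 contain a given face of rank 2. -/
def T_EDG : Prop :=
  ∀ (V : Type) [NormedAddCommGroup V] [NormedSpace ℝ V] [FiniteDimensional ℝ V] (C : Set V)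
    (q e a b c : V), IsCC C → q ∈ C → rk C q = 4 → rk C e = 2 → a ∈ Fc C q → b ∈ Fc C q →
    c ∈ Fc C q → rk C a = 3 → rk C b = 3 → rk C c = 3 → e ∈ Fc C a → e ∈ Fc C b → e ∈ Fc C c →
    b ∉ Fc C a → c ∉ Fc C a → c ∉ Fc C b → False

/-- A23. Faces of simplicial cones. -/
def T_GNF : Prop :=
  ∀ (V : Type) [NormedAddCommGroup V] [NormedSpace ℝ V] [FiniteDimensional ℝ V] (C : Set V)
    (q : V) (n : ℕ) (x : Fin n → V), IsCC C → q ∈ C → Gen C x q →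
    rk C q = n ∧ q ∈ Fc C (∑ i, x i) ∧
    (∀ r, (∃ c : Fin n → ℝ, (∀ i, 0 ≤ c i) ∧ r = ∑ i, c i • x i) → r ∈ Fc C q) ∧
    (∀ y, Ex C y → y ∈ Fc C q → ∃ i, y ∈ Fc C (x i)) ∧
    (∀ c : Fin n → ℝ, (∀ i, 0 ≤ c i) → ∀ r ∈ Fc C (∑ i, c i • x i),
      ∃ d : Fin n → ℝ, (∀ i, 0 ≤ d i) ∧ (∀ i, c i = 0 → d i = 0) ∧ r = ∑ i, d i • x i) ∧
    ∀ p ∈ Fc C q, Smp C (rk C p) p

/-- A24. Direct sums of simplicial cones. -/
def T_SMD : Prop :=
  ∀ (V : Type) [NormedAddCommGroup V] [NormedSpace ℝ V] [FiniteDimensional ℝ V] (C : Set V)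
    (a b q : V) (k l : ℕ), IsCC C → Dsum C a b → Smp C k a → Smp C l b → q ∈ C →
    q ∈ Fc C (a + b) → a + b ∈ Fc C q → Smp C (k + l) q

/-- A25. Small simplicial cones: rank 1, rank 2 and pyramids over triangles. -/
def T_SM2 : Prop :=
  ∀ (V : Type) [NormedAddCommGroup V] [NormedSpace ℝ V] [FiniteDimensional ℝ V] (C : Set V)
    (q : V), IsCC C → q ∈ C →
    (Ex C q → Smp C 1 q) ∧ (rk C q = 2 → Smp C 2 q) ∧
    (∀ a z, Pyr C q a z → Smp C 3 a → Smp C 4 q) ∧ (∀ a z, Pyr C q a z → Smp C 4 q → Smp C 3 a)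

/-- A26. A cone with two pyramid decompositions is simplicial. -/
def T_TTT : Prop :=
  ∀ (V : Type) [NormedAddCommGroup V] [NormedSpace ℝ V] [FiniteDimensional ℝ V] (C : Set V)
    (q a z a' z' : V), IsCC C → q ∈ C → Pyr C q a z → Pyr C q a' z' → ¬ Smp C 4 q →
    z' ∈ Fc C z ∧ a' ∈ Fc C a ∧ a ∈ Fc C a'

/-- A27. A face of a direct sum with two extreme rays. -/
def T_X5L : Prop :=
  ∀ (V : Type) [NormedAddCommGroup V] [NormedSpace ℝ V] [FiniteDimensional ℝ V] (C : Set V)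
    (a z y f g u : V), IsCC C → Ex C z → Ex C y → Dsum C a (z + y) → Dsum C z y → f ∈ C →
    a + (z + y) ∈ Fc C f → f ∈ Fc C (a + (z + y)) → u ∈ Fc C a → g ∈ Fc C f → f ∈ Fc C (g + u) →
    ∃ β ∈ Fc C g, β ∈ Fc C a ∧ a ∈ Fc C (β + u) ∧ rk C g = rk C β + 2 ∧ Dsum C β (z + y) ∧
      β + (z + y) ∈ Fc C g ∧ g ∈ Fc C (β + (z + y)) ∧ z ∈ Fc C g ∧ y ∈ Fc C g

/-- A28. A filter of faces is given by its smallest element. -/
def T_SHB : Prop :=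
  ∀ (V : Type) [NormedAddCommGroup V] [NormedSpace ℝ V] [FiniteDimensional ℝ V] (C : Set V)
    (q : V) (big : V → Prop), IsCC C → q ∈ C → big q → ¬ big 0 →
    (∀ s ∈ Fc C q, ∀ s' ∈ Fc C s, big s' → big s) →
    (∀ s ∈ Fc C q, ∀ s' ∈ Fc C q, ∀ r ∈ C, (∀ t, t ∈ Fc C r ↔ t ∈ Fc C s ∧ t ∈ Fc C s') →
      big s → big s' → big r) →
    ∃ b ∈ Fc C q, b ≠ 0 ∧ ∀ s ∈ Fc C q, big s ↔ b ∈ Fc C s

/-- the properties of the faces which do not contain `b` in the next four statements -/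
structure Bsy {V : Type} [NormedAddCommGroup V] [NormedSpace ℝ V] (C : Set V) (q b : V) :
    Prop where
  cc : IsCC C
  hq : q ∈ C
  rk4 : rk C q = 4
  hb : b ∈ Fc C q
  ncc : ∀ t u, Ex C t → Ex C u → t ∈ Fc C q → u ∈ Fc C q → b ∉ Fc C t → b ∉ Fc C u →
    q ∉ Fc C (t + u)
  ii2 : ∀ e t, rk C e = 2 → Ex C t → e ∈ Fc C q → t ∈ Fc C q → b ∉ Fc C e → b ∉ Fc C t →
    q ∉ Fc C (e + t)
  trc : ∀ s t, rk C s = 3 → Ex C t → s ∈ Fc C q → t ∈ Fc C q → t ∉ Fc C s → b ∉ Fc C s →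
    b ∉ Fc C t → Smp C 3 s

/-- A28a. Pairs of extreme rays in faces of rank 2 and in triangles. -/
def T_RK2 : Prop :=
  ∀ (V : Type) [NormedAddCommGroup V] [NormedSpace ℝ V] [FiniteDimensional ℝ V] (C : Set V),
    IsCC C →
    (∀ x y, Ex C x → Ex C y → y ∉ Fc C x → rk C (x + y) = 2 →
      ∀ w, Ex C w → w ∈ Fc C (x + y) → w ∈ Fc C x ∨ w ∈ Fc C y) ∧
    ∀ s x y, s ∈ C → Smp C 3 s → Ex C x → Ex C y → x ∈ Fc C s → y ∈ Fc C s → y ∉ Fc C x →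
      rk C (x + y) = 2

/-- A29. Case `rk b = 4`. -/
def T_SH4 : Prop :=
  ∀ (V : Type) [NormedAddCommGroup V] [NormedSpace ℝ V] [FiniteDimensional ℝ V] (C : Set V)
    (q b : V), Bsy C q b → rk C b = 4 → Smp C 4 q

/-- A30. Case `rk b = 3`. -/
def T_SH3 : Prop :=
  ∀ (V : Type) [NormedAddCommGroup V] [NormedSpace ℝ V] [FiniteDimensional ℝ V] (C : Set V)
    (q b : V), Bsy C q b → rk C b = 3 → Smp C 4 q

/-- A31. Case `rk b = 2`. -/
def T_SH2 : Prop :=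
  ∀ (V : Type) [NormedAddCommGroup V] [NormedSpace ℝ V] [FiniteDimensional ℝ V] (C : Set V)
    (q b : V), Bsy C q b → rk C b = 2 → Smp C 4 q

/-- A31a. Case `rk b = 1`: pairs of rays. -/
def T_SHC : Prop :=
  ∀ (V : Type) [NormedAddCommGroup V] [NormedSpace ℝ V] [FiniteDimensional ℝ V] (C : Set V)
    (q b : V), Bsy C q b → Ex C b →
    (∀ W : Submodule ℝ V, Module.finrank ℝ W ≤ 3 →
      ∃ x, Ex C x ∧ x ∈ Fc C q ∧ b ∉ Fc C x ∧ x ∉ W) →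
    ∀ x y, Ex C x → Ex C y → x ∈ Fc C q → y ∈ Fc C q → b ∉ Fc C x → b ∉ Fc C y → y ∉ Fc C x →
      b ∉ Fc C (x + y) ∧ rk C (x + y) = 2

/-- A32. Case `rk b = 1`. -/
def T_SH1 : Prop :=
  ∀ (V : Type) [NormedAddCommGroup V] [NormedSpace ℝ V] [FiniteDimensional ℝ V] (C : Set V)
    (q b : V), Bsy C q b → rk C b = 1 → Smp C 4 q ∨ ∃ a, Pyr C q a b

/-- A33. The span of the rays different from `b` (used for the case `rk b = 1`). -/
def T_SHS : Prop :=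
  ∀ (V : Type) [NormedAddCommGroup V] [NormedSpace ℝ V] [FiniteDimensional ℝ V] (C : Set V)
    (q b : V) (W : Submodule ℝ V), IsCC C → q ∈ C → rk C q = 4 → Ex C b → b ∈ Fc C q →
    Module.finrank ℝ W ≤ 3 → (∀ x, Ex C x → x ∈ Fc C q → x ∈ Fc C b ∨ x ∈ W) →
    ∃ a, Pyr C q a b

/-- A34. A finite intersecting family. -/
def T_FSF : Prop :=
  ∀ (α : Type) (F : Set (Finset α)), (∀ S ∈ F, S.card = 4) → (∀ S ∈ F, ∀ S' ∈ F, ¬ Disjoint S S') →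
    (∀ S ∈ F, ∀ x ∈ S, ∃ S' ∈ F, ∀ y, y ∈ S → y ∈ S' → y = x) → F.Finite

end Pool.Agent.H61.KW
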