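import Pool.Agent.H61.KW.TA
import Pool.Agent.H61.KV.TS

/-!
# Kuiper board KW, part B: essential faces

`m : PN 2 → V` is a configuration (`Cfg m`), `Cn m` its cone, `Mh m` the cone over the image.
`Ef m q`: the face of `q` is a minimal face which is not contained in `Mh m` (an essential face).
-/

open Topology Set
open Pool.Agent.H59 Pool.Agent.H64.LB Pool.Agent.H61.KU Pool.Agent.H61.KV
open scoped unitInterval

namespace Pool.Agent.H61.KW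

section defs

variable {V : Type} [NormedAddCommGroup V] [NormedSpace ℝ V]

/-- the face of `q` is essential -/
def Ef (m : PN 2 → V) (q : V) : Prop :=
  q ∈ Cn m ∧ ∃ p, Ms m p ∧ Fc (Cn m) p = Fc (Cn m) q

/-- no extreme ray is transversal to an essential face -/
def Star (m : PN 2 → V) : Prop := ∀ q x, Ef m q → Ex (Cn m) x → ¬ Ov (Cn m) q x

/-- `g` is a transversal foot for the face of `q` -/
structure Tf (m : PN 2 → V) (q g : V) : Prop where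
  mem : g ∈ Cn m
  foot : Foot (Cn m) q g g
  ov : Ov (Cn m) q g

/-- the basic facts on essential faces -/
structure Kit (m : PN 2 → V) : Prop where
  cfg : Cfg m
  cc : IsCC (Cn m)
  fin : Module.finrank ℝ V = 9
  span : Submodule.span ℝ (Cn m) = ⊤
  closed : IsClosed (Mh m)
  mhC : Mh m ⊆ Cn m
  smul : ∀ c : ℝ, 0 ≤ c → ∀ p ∈ Mh m, c • p ∈ Mh m
  /-- extreme vectors are in `Mh m` -/
  ex : ∀ x, Ex (Cn m) x → x ∈ Mh m
  mem : ∀ q, Ef m q → q ∈ Cn m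
  /-- `Ef m` depends only on the face -/
  congr : ∀ q r, Ef m q → r ∈ Fc (Cn m) q → q ∈ Fc (Cn m) r → Ef m r
  rk4 : ∀ q, Ef m q → rk (Cn m) q = 4
  /-- proper subfaces of essential faces are contained in `Mh m` -/
  bd : ∀ q r, Ef m q → r ∈ Fc (Cn m) q → q ∉ Fc (Cn m) r → Fc (Cn m) r ⊆ Mh m
  nsub : ∀ q, Ef m q → ¬ Fc (Cn m) q ⊆ Mh m
  /-- faces of rank at most 3 are contained in `Mh m` -/
  low : ∀ r ∈ Cn m, rk (Cn m) r ≤ 3 → Fc (Cn m) r ⊆ Mh m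
  /-- faces of rank 4 which are not contained in `Mh m` are essential -/
  ef : ∀ r ∈ Cn m, rk (Cn m) r = 4 → ¬ Fc (Cn m) r ⊆ Mh m → Ef m r
  /-- faces which are not contained in `Mh m` contain essential faces -/
  exi : ∀ r ∈ Cn m, ¬ Fc (Cn m) r ⊆ Mh m → ∃ q ∈ Fc (Cn m) r, Ef m q
  ftd : ∀ q, Ef m q → Ftd (Cn m) q
  footM : ∀ q r g, Ef m q → Foot (Cn m) q r g → g ∈ Mh m ∧ Fc (Cn m) g ⊆ Mh m
  /-- points of `Mh m` which are transversal to an essential face are feet -/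
  ovf : ∀ q r, Ef m q → r ∈ Mh m → Ov (Cn m) q r → Tf m q r
  /-- there is a transversal foot -/
  tr : ∀ q, Ef m q → ∃ g, Tf m q g
  /-- two essential faces have a common extreme ray -/
  meet : ∀ q q', Ef m q → Ef m q' →
    ∃ x, Ex (Cn m) x ∧ x ∈ Fc (Cn m) q ∧ x ∈ Fc (Cn m) q'

end defs

/-- B1. The basic facts. -/
def T_KIT : Prop :=
  ∀ (V : Type) [NormedAddCommGroup V] [NormedSpace ℝ V] [FiniteDimensional ℝ V] (m : PN 2 → V),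
    Cfg m → Kit m

/-- B2. There is an essential face. -/
def T_EXG : Prop :=
  ∀ (V : Type) [NormedAddCommGroup V] [NormedSpace ℝ V] [FiniteDimensional ℝ V] (m : PN 2 → V),
    Cfg m → ∃ p, Ms m p

/-- B3. Transversal feet plus points of the essential face. -/
def T_TFT : Prop :=
  ∀ (V : Type) [NormedAddCommGroup V] [NormedSpace ℝ V] [FiniteDimensional ℝ V] (m : PN 2 → V),
    Kit m → ∀ q g s, Ef m q → Tf m q g → s ∈ Fc (Cn m) q → s ≠ 0 →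
      g + s ∉ Mh m ∧ ¬ Fc (Cn m) (g + s) ⊆ Mh m ∧ 4 ≤ rk (Cn m) (g + s) ∧
      (rk (Cn m) (g + s) = 4 → Ef m (g + s)) ∧ Ov (Cn m) q (g + s) ∧
      ∀ w, g + s ∈ Fc (Cn m) w → w ∈ Fc (Cn m) (g + s) → w ∉ Mh m

/-- B4. Submodularity for an essential face and a transversal foot: two extreme rays. -/
def T_LDE : Prop :=
  ∀ (V : Type) [NormedAddCommGroup V] [NormedSpace ℝ V] [FiniteDimensional ℝ V] (m : PN 2 → V),
    Kit m → ∀ q g s s' τ, Ef m q → Tf m q g → τ ∈ Fc (Cn m) q → s ∈ Fc (Cn m) τ →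
      s' ∈ Fc (Cn m) τ → (∀ t ∈ Fc (Cn m) s, t ∈ Fc (Cn m) s' → t = 0) →
      rk (Cn m) (g + q) = 9 ∧ rk (Cn m) g ≤ 5 ∧ rk (Cn m) (g + τ) ≤ 5 + rk (Cn m) τ ∧
      rk (Cn m) g + rk (Cn m) s ≤ rk (Cn m) (g + s) ∧
      rk (Cn m) (g + s) + rk (Cn m) (g + s') + rk (Cn m) τ ≤
        rk (Cn m) g + rk (Cn m) (g + τ) + rk (Cn m) s + rk (Cn m) s'

/-- B5. The sphere around a point of an essential face. -/
def T_P1X : Prop :=
  ∀ (V : Type) [NormedAddCommGroup V] [NormedSpace ℝ V] [FiniteDimensional ℝ V] (m : PN 2 → V),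
    Cfg m → ∀ (q : V) (e : V →ₗ[ℝ] ℝ), Ef m q → (∀ r ∈ Cn m, r ≠ 0 → 0 < e r) →
      ∃ (p : V) (j : (Fin 3 → ℝ) →ᵃ[ℝ] V) (α : C(Sph 2, PN 2)), p ∈ Fc (Cn m) q ∧
        q ∈ Fc (Cn m) p ∧ p ∉ Mh m ∧ e p = 1 ∧ Function.Injective j ∧ j 0 = p ∧
        (∀ y, j y ∈ Sp (Cn m) q ∧ e (j y) = 1) ∧ IsCompact (j ⁻¹' Fc (Cn m) q) ∧
        Convex ℝ (j ⁻¹' Fc (Cn m) q) ∧ (0 : Fin 3 → ℝ) ∈ interior (j ⁻¹' Fc (Cn m) q) ∧
        (∀ u : Sph 2, Bd (Cn m) q (m (α u))) ∧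
        (∀ u : Sph 2, ∃ c : ℝ, 0 < c ∧ m (α u) = c • j (rad (j ⁻¹' Fc (Cn m) q) u.1)) ∧
        Function.Injective (HH.map (ZMod 2) 2 α)

/-- B6. Null-homotopic maps. -/
def T_NUH : Prop :=
  ∀ (S Y : Type) [TopologicalSpace S] [TopologicalSpace Y] (α : C(S, Y)) (H : C(I × S, Y)) (y : Y),
    (∀ s, H (0, s) = α s) → (∀ s, H (1, s) = y) → ∀ z : HH (ZMod 2) 2 S, HH.map (ZMod 2) 2 α z = 0

/-- B7. The second homology of the projective plane. -/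
def T_H2U : Prop := ∀ a b : HH (ZMod 2) 2 (PN 2), a ≠ 0 → b ≠ 0 → a = b

/-- B8. Spheres in the space without the origin. -/
def T_LIN3 : Prop :=
  ∀ (A : (Fin 3 → ℝ) →ₗ[ℝ] (Fin 3 → ℝ)) (φ : C(Sph 2, {y : Fin 3 → ℝ // y ≠ 0})),
    Function.Injective A → (∀ u : Sph 2, ∃ c : ℝ, 0 < c ∧ (φ u).1 = c • A u.1) →
    Function.Injective (HH.map (ZMod 2) 2 φ)

/-- B9. The projection which is used for `EXA`. -/
def T_LAM : Prop :=
  ∀ (V : Type) [NormedAddCommGroup V] [NormedSpace ℝ V] [FiniteDimensional ℝ V] (x : Fin 5 → V)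
    (a b : Fin 5 → ℝ), LinearIndependent ℝ x → a 0 = 0 → (∀ i, i ≠ 0 → 0 < a i) → b 1 = 0 →
    (∀ i, i ≠ 1 → 0 < b i) →
    ∃ Λ : V →ₗ[ℝ] (Fin 3 → ℝ), Λ (∑ i, a i • x i) = 0 ∧ Λ (∑ i, b i • x i) = 0 ∧
      ∀ c : Fin 5 → ℝ, Λ (∑ i, c i • x i) = 0 → ∃ r s : ℝ, ∀ i, c i = r * a i + s * b i

/-- B10. A half-space which contains the image points in a face and avoids a compact set. -/
def T_HSU : Prop :=
  ∀ (V : Type) [NormedAddCommGroup V] [NormedSpace ℝ V] [FiniteDimensional ℝ V] (m : PN 2 → V)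
    (f : V) (Λ : V →ₗ[ℝ] (Fin 3 → ℝ)), Kit m → f ∈ Cn m →
    (∀ x, m x ∈ Fc (Cn m) f → Λ (m x) ≠ 0) →
    ∃ ξ : V →ₗ[ℝ] ℝ, (∀ q ∈ Fc (Cn m) f, q ≠ 0 → ξ q < 0) ∧ ∀ x, ξ (m x) < 0 → Λ (m x) ≠ 0

/-- B11. A simplicial face of rank 5 without relative interior points in `Mh m` has at most two
essential facets. -/
def T_EXA : Prop :=
  ∀ (V : Type) [NormedAddCommGroup V] [NormedSpace ℝ V] [FiniteDimensional ℝ V] (m : PN 2 → V),
    Kit m → ∀ (x : Fin 5 → V) (f : V), f ∈ Cn m → Gen (Cn m) x f →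
      (∀ w ∈ Fc (Cn m) f, f ∈ Fc (Cn m) w → w ∉ Mh m) →
      Ef m (x 1 + x 2 + x 3 + x 4) → Ef m (x 0 + x 2 + x 3 + x 4) →
      Ef m (x 0 + x 1 + x 3 + x 4) → False

/-- B12. A point which sees a hole. -/
def T_COE : Prop :=
  ∀ (V : Type) [NormedAddCommGroup V] [NormedSpace ℝ V] [FiniteDimensional ℝ V] (m : PN 2 → V),
    Kit m → ∀ q x, Ef m q → x ∈ Mh m → x ≠ 0 → ∃ s, Bd (Cn m) q s ∧ x + s ∉ Mh m

/-- B13. Every extreme ray of a face which is not contained in `Mh m` is in an essential subface. -/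
def T_VEX : Prop :=
  ∀ (V : Type) [NormedAddCommGroup V] [NormedSpace ℝ V] [FiniteDimensional ℝ V] (m : PN 2 → V),
    Kit m → ∀ f x, f ∈ Cn m → ¬ Fc (Cn m) f ⊆ Mh m → Ex (Cn m) x → x ∈ Fc (Cn m) f →
      ∃ q, Ef m q ∧ q ∈ Fc (Cn m) f ∧ x ∈ Fc (Cn m) q

/-- B14. An essential face which meets a given one exactly in a given extreme ray. -/
def T_EPT : Prop :=
  ∀ (V : Type) [NormedAddCommGroup V] [NormedSpace ℝ V] [FiniteDimensional ℝ V] (m : PN 2 → V),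
    Kit m → ∀ q t, Ef m q → Ex (Cn m) t → t ∈ Fc (Cn m) q →
      ∃ p, Ef m p ∧ t ∈ Fc (Cn m) p ∧ ∀ r ∈ Fc (Cn m) p, r ∈ Fc (Cn m) q → r ∈ Fc (Cn m) t

/-- B15. Two essential faces with a common face of rank 3. -/
def T_SHR : Prop :=
  ∀ (V : Type) [NormedAddCommGroup V] [NormedSpace ℝ V] [FiniteDimensional ℝ V] (m : PN 2 → V),
    Kit m → ∀ q q' a z, Ef m q → Ef m q' → q' ∉ Fc (Cn m) q → a ∈ Fc (Cn m) q →
      a ∈ Fc (Cn m) q' → rk (Cn m) a = 3 → Ex (Cn m) z → z ∈ Fc (Cn m) q → z ∉ Fc (Cn m) a →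
      Pyr (Cn m) q a z

/-- B16. Faces of rank 5: an essential face and one more ray. -/
def T_F5A : Prop :=
  ∀ (V : Type) [NormedAddCommGroup V] [NormedSpace ℝ V] [FiniteDimensional ℝ V] (m : PN 2 → V),
    Kit m → ∀ q y, Ef m q → Ex (Cn m) y → y ∉ Fc (Cn m) q → rk (Cn m) (q + y) = 5 →
      Dsum (Cn m) q y ∧ ∃ a z, Pyr (Cn m) q a z ∧ Ef m (a + y)

/-- B17. Faces of rank 5. -/
def T_F5B : Prop :=
  ∀ (V : Type) [NormedAddCommGroup V] [NormedSpace ℝ V] [FiniteDimensional ℝ V] (m : PN 2 → V),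
    Kit m → ∀ f, f ∈ Cn m → rk (Cn m) f = 5 → ¬ Fc (Cn m) f ⊆ Mh m →
      ∃ a z y, rk (Cn m) a = 3 ∧ Ex (Cn m) z ∧ Ex (Cn m) y ∧ Dsum (Cn m) a (z + y) ∧
        Dsum (Cn m) z y ∧ a + (z + y) ∈ Fc (Cn m) f ∧ f ∈ Fc (Cn m) (a + (z + y)) ∧
        Ef m (a + z) ∧ Ef m (a + y)

/-- B18. Transversal feet `g` with `rk (g + u) = 5` for an extreme ray `u`. -/
def T_F5U : Prop :=
  ∀ (V : Type) [NormedAddCommGroup V] [NormedSpace ℝ V] [FiniteDimensional ℝ V] (m : PN 2 → V),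
    Kit m → ∀ q g u, Ef m q → Tf m q g → Ex (Cn m) u → u ∈ Fc (Cn m) q →
      rk (Cn m) (g + u) = 5 →
      ∃ β z y, β ∈ Fc (Cn m) g ∧ z ∈ Fc (Cn m) g ∧ y ∈ Fc (Cn m) g ∧ Ex (Cn m) z ∧
        Ex (Cn m) y ∧ Dsum (Cn m) β (z + y) ∧ Dsum (Cn m) z y ∧ β + (z + y) ∈ Fc (Cn m) g ∧
        g ∈ Fc (Cn m) (β + (z + y)) ∧ rk (Cn m) g = rk (Cn m) β + 2 ∧
        rk (Cn m) (β + u) = 3 ∧ Dsum (Cn m) (β + u) (z + y) ∧ Ef m ((β + u) + z) ∧
        Ef m ((β + u) + y)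

/-- B19. Transversal essential faces. -/
def T_TRR : Prop :=
  ∀ (V : Type) [NormedAddCommGroup V] [NormedSpace ℝ V] [FiniteDimensional ℝ V] (m : PN 2 → V),
    Kit m → ∀ q q', Ef m q → Ef m q' → Ov (Cn m) q q' →
      ∃ g t, Tf m q g ∧ Ex (Cn m) t ∧ t ∈ Fc (Cn m) q ∧ t ∈ Fc (Cn m) q' ∧ g ∈ Fc (Cn m) q' ∧
        q' ∈ Fc (Cn m) (g + t) ∧ ∀ r ∈ Fc (Cn m) q, r ∈ Fc (Cn m) q' → r ∈ Fc (Cn m) t

/-- B20. Essential faces which do not meet `a`. -/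
def T_ZED : Prop :=
  ∀ (V : Type) [NormedAddCommGroup V] [NormedSpace ℝ V] [FiniteDimensional ℝ V] (m : PN 2 → V),
    Kit m → ∀ p a u, Ef m p → Ef m (a + u) → Ex (Cn m) u → Dsum (Cn m) a u →
      (∀ r ∈ Fc (Cn m) p, r ∈ Fc (Cn m) a → r = 0) → u ∈ Fc (Cn m) p

/-- B21. A transversal extreme ray. -/
def T_R1S : Prop :=
  ∀ (V : Type) [NormedAddCommGroup V] [NormedSpace ℝ V] [FiniteDimensional ℝ V] (m : PN 2 → V),
    Kit m → ∀ q x, Ef m q → Ex (Cn m) x → Ov (Cn m) q x →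
      (∀ t, Ex (Cn m) t → t ∈ Fc (Cn m) q → Ef m (x + t)) ∧ Scx (Cn m) q

/-- B22. Strictly convex essential faces. -/
def T_SCM : Prop :=
  ∀ (V : Type) [NormedAddCommGroup V] [NormedSpace ℝ V] [FiniteDimensional ℝ V] (m : PN 2 → V),
    Kit m → ∀ q, Ef m q → Scx (Cn m) q → ∀ r ∈ Cn m, r ∉ Fc (Cn m) q → Ov (Cn m) q r

/-- B23. An essential face which is transversal to all other points. -/
def T_MN1 : Prop :=
  ∀ (V : Type) [NormedAddCommGroup V] [NormedSpace ℝ V] [FiniteDimensional ℝ V] (m : PN 2 → V),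
    Kit m → ∀ q, Ef m q → (∀ r ∈ Cn m, r ∉ Fc (Cn m) q → Ov (Cn m) q r) →
      ∀ r ∈ Cn m, Fc (Cn m) r ⊆ Mh m → r = 0 ∨ Ex (Cn m) r

/-- B24. If all faces in `Mh m` are rays there is no segment in the image. -/
def T_N1S : Prop :=
  ∀ (V : Type) [NormedAddCommGroup V] [NormedSpace ℝ V] [FiniteDimensional ℝ V] (m : PN 2 → V),
    Kit m → (∀ r ∈ Cn m, Fc (Cn m) r ⊆ Mh m → r = 0 ∨ Ex (Cn m) r) → NSg m

/-- B25. The first alternative. -/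
def T_NST : Prop :=
  ∀ (V : Type) [NormedAddCommGroup V] [NormedSpace ℝ V] [FiniteDimensional ℝ V] (m : PN 2 → V),
    Kit m → ¬ Star m → NSg m

/-- B26. In the second alternative essential faces are not strictly convex. -/
def T_NSC : Prop :=
  ∀ (V : Type) [NormedAddCommGroup V] [NormedSpace ℝ V] [FiniteDimensional ℝ V] (m : PN 2 → V),
    Kit m → Star m → ∀ q, Ef m q → ¬ Scx (Cn m) q

end Pool.Agent.H61.KW
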